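import Pool.Agent.Q57.MT.Trunc

/-!
# Twists and the hard Lefschetz theorem
-/

set_option autoImplicit false
set_option linter.unusedSectionVars false
set_option linter.unusedSimpArgs false
set_option backward.isDefEq.respectTransparency false
set_option backward.defeqAttrib.useBackward true

open CategoryTheory Limits MonoidalCategory Pretriangulated Triangulated
open Pool.Agent.Y112.KD (tp asym)
open Pool.Agent.Y116.MT

namespace Pool.Agent.Q57.MT

universe v u w w'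

open Functor.LaxMonoidal

section

variable {C : Type u} [Category.{v} C] [Preadditive C] [HasZeroObject C] [HasShift C ℤ]
  [∀ n : ℤ, (shiftFunctor C n).Additive] [Pretriangulated C] [IsTriangulated C]
  [MonoidalCategory C] [SymmetricCategory C] [TensorTriangulated C] [MonoidalPreadditive C]
  [RightRigidCategory C] {E : Type w} [Field E]
  (R : Realisation C E) {t : TStructure C}

/-- The dimensions of the tensor product with an object in one degree. -/
lemma hd_deg_tensor {T : C} {a : ℤ} (hT : R.Deg T a) (Y : C) (i j : ℤ) (h : i - a = j) :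
    hd R (T ⊗ Y) i = hd R T a * hd R Y j := by
  have h1 : hd R (T ⊗ Y) i = Module.finrank E (R.H.obj (T ⊗ Y⟦i⟧)) :=
    finrank_iso (R.H.mapIso (rShift T Y i).symm)
  have h2 := hT.isIso_mu_shift (Y⟦i⟧)
  have h3 : Module.finrank E (R.H.obj (T ⊗ Y⟦i⟧)) =
      Module.finrank E (R.H.obj (T⟦a⟧) ⊗ R.H.obj (Y⟦i⟧⟦-a⟧) : ModuleCat.{w} E) :=
    finrank_iso ((asIso (μ R.H (T⟦a⟧) (Y⟦i⟧⟦-a⟧)) ≪≫
      R.H.mapIso (shiftTensorIso T (Y⟦i⟧) a)).symm)
  have h4 : Module.finrank E (R.H.obj (T⟦a⟧) ⊗ R.H.obj (Y⟦i⟧⟦-a⟧) : ModuleCat.{w} E) =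
      Module.finrank E (R.H.obj (T⟦a⟧)) * Module.finrank E (R.H.obj (Y⟦i⟧⟦-a⟧)) :=
    Module.finrank_tensorProduct
  rw [h1, h3, h4]
  congr 1
  exact hd_shift R Y i (-a) j (by omega)

lemma hd_unit : hd R (𝟙_ C) 0 = 1 := by
  have h1 : hd R (𝟙_ C) 0 = Module.finrank E (R.H.obj (𝟙_ C)) :=
    finrank_iso (R.H.mapIso ((shiftFunctorZero C ℤ).app _))
  have := R.unit
  rw [h1, ← finrank_iso (asIso (ε R.H))]
  exact Module.finrank_self E

/-- An invertible object in one degree has rank one. -/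
lemma hd_invertible {T T' : C} {a : ℤ} (hT : R.Deg T a) (e : T ⊗ T' ≅ 𝟙_ C) : hd R T a = 1 := by
  have h1 := hd_deg_tensor R hT T' 0 (-a) (by omega)
  rw [hd_iso R e, hd_unit] at h1
  exact Nat.eq_one_of_mul_eq_one_right h1.symm

lemma truncLT_tensor (ht : TensorCompat t) {T : C} {a : ℤ} (h1 : t.IsLE T a) (h2 : t.IsGE T a)
    (X : C) (n m : ℤ) (h : a + m = n) :
    Nonempty ((t.truncLT n).obj (T ⊗ X) ≅ T ⊗ (t.truncLT m).obj X) := by
  have hT' := tensor_dist T (t.triangleLTGE_distinguished m X)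
  have h3 : t.IsLE (T ⊗ (t.truncLT m).obj X) (n - 1) := by
    have h4 : t.IsLE ((t.truncLT m).obj X) (m - 1) := inferInstance
    have h5 := ht.isLE h1 h4
    rwa [show a + (m - 1) = n - 1 by omega] at h5
  have h4 : t.IsGE (T ⊗ (t.truncGE m).obj X) n := by
    have h4 : t.IsGE ((t.truncGE m).obj X) m := inferInstance
    have h5 := ht.isGE h2 h4
    rwa [h] at h5
  have h5 : t.IsLE ((t.truncLT n).obj (T ⊗ X)) (n - 1) := inferInstance
  have h6 : t.IsGE ((t.truncGE n).obj (T ⊗ X)) n := inferInstance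
  obtain ⟨e, -⟩ := t.triangle_iso_exists (t.triangleLTGE_distinguished n (T ⊗ X)) hT' (Iso.refl _)
    (n - 1) n h5 h6 h3 h4 (by omega)
  exact ⟨Triangle.π₁.mapIso e⟩

lemma truncGE_tensor (ht : TensorCompat t) {T : C} {a : ℤ} (h1 : t.IsLE T a) (h2 : t.IsGE T a)
    (X : C) (n m : ℤ) (h : a + m = n) :
    Nonempty ((t.truncGE n).obj (T ⊗ X) ≅ T ⊗ (t.truncGE m).obj X) := by
  have hT' := tensor_dist T (t.triangleLTGE_distinguished m X)
  have h3 : t.IsLE (T ⊗ (t.truncLT m).obj X) (n - 1) := by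
    have h4 : t.IsLE ((t.truncLT m).obj X) (m - 1) := inferInstance
    have h5 := ht.isLE h1 h4
    rwa [show a + (m - 1) = n - 1 by omega] at h5
  have h4 : t.IsGE (T ⊗ (t.truncGE m).obj X) n := by
    have h4 : t.IsGE ((t.truncGE m).obj X) m := inferInstance
    have h5 := ht.isGE h2 h4
    rwa [h] at h5
  have h5 : t.IsLE ((t.truncLT n).obj (T ⊗ X)) (n - 1) := inferInstance
  have h6 : t.IsGE ((t.truncGE n).obj (T ⊗ X)) n := inferInstance
  obtain ⟨e, -⟩ := t.triangle_iso_exists (t.triangleLTGE_distinguished n (T ⊗ X)) hT' (Iso.refl _)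
    (n - 1) n h5 h6 h3 h4 (by omega)
  exact ⟨Triangle.π₃.mapIso e⟩

lemma coh_tensor (ht : TensorCompat t) {T : C} {a : ℤ} (h1 : t.IsLE T a) (h2 : t.IsGE T a)
    (X : C) (n m : ℤ) (h : a + m = n) :
    Nonempty (coh t n (T ⊗ X) ≅ T ⊗ coh t m X) := by
  obtain ⟨e1⟩ := truncLT_tensor ht h1 h2 X (n + 1) (m + 1) (by omega)
  obtain ⟨e2⟩ := truncGE_tensor ht h1 h2 ((t.truncLT (m + 1)).obj X) n m h
  exact ⟨(t.truncGE n).mapIso e1 ≪≫ e2⟩

/-- The dimensions of the cohomology objects of a twist. -/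
lemma hd_coh_twist (ht : TensorCompat t) {T T' : C} (h1 : t.IsLE T (-2)) (h2 : t.IsGE T (-2))
    (hT : R.Deg T (-2)) (e : T ⊗ T' ≅ 𝟙_ C) (X : C) (k : ℕ) :
    ∀ (j i : ℤ), hd R (coh t j (twist T X k)) i = hd R (coh t (j + 2 * k) X) (i + 2 * k) := by
  induction k with
  | zero =>
    intro j i
    simp [twist]
  | succ k ih =>
    intro j i
    obtain ⟨e1⟩ := coh_tensor ht h1 h2 (twist T X k) j (j + 2) (by omega)
    have e2 : coh t j (twist T X (k + 1)) ≅ coh t j (T ⊗ twist T X k) :=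
      (t.truncGELT j (j + 1)).mapIso (β_ _ _)
    rw [hd_iso R (e2 ≪≫ e1), hd_deg_tensor R hT _ i (i + 2) (by omega), hd_invertible R hT e,
      one_mul, ih]
    congr 1
    · rw [show j + 2 + 2 * (k : ℤ) = j + 2 * ((k + 1 : ℕ) : ℤ) by push_cast; ring]
    · push_cast
      ring

end

end Pool.Agent.Q57.MT
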