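import Mathlib

/-!
# A numerical criterion
-/

set_option autoImplicit false

namespace Pool.Agent.Q57.MT

/-- The second moment argument. -/
theorem second_moment (D : ℤ → ℤ → ℕ) (b : ℤ → ℕ) (N : ℕ) (e : ℤ)
    (h1 : ∀ i : ℤ, b i ≤ ∑ j ∈ Finset.Icc (-(N : ℤ)) N, D j i)
    (h2 : ∀ (j : ℤ) (s : Finset ℤ), ∑ i ∈ s, D j i ≤ b j)
    (h3 : ∀ j : ℤ, j ∉ Finset.Icc (-(N : ℤ)) N → b j = 0)
    (h4 : ∀ (k : ℕ) (i : ℤ), D (e - k) i = D (e + k) (i + 2 * k))
    (j i : ℤ) (hij : i ≠ j) : D j i = 0 := by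
  set J : Finset ℤ := Finset.Icc (-(N : ℤ)) N with hJ
  have hj0 : ∀ j, j ∉ J → ∀ i, D j i = 0 := by
    intro j hj i
    have := h2 j {i}
    rw [h3 j hj, Finset.sum_singleton] at this
    omega
  have hle : ∀ S : Finset ℤ, J ⊆ S → ∑ i ∈ J, b i = ∑ i ∈ S, ∑ j ∈ J, D j i := by
    intro S hS
    apply le_antisymm
    · exact (Finset.sum_le_sum fun i _ => h1 i).trans (Finset.sum_le_sum_of_subset hS)
    · rw [Finset.sum_comm]
      exact Finset.sum_le_sum fun j _ => h2 j S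
  have hi0 : ∀ i, i ∉ J → ∀ j, D j i = 0 := by
    intro i hi j
    by_cases hj : j ∈ J
    · have e1 := hle J (Finset.Subset.refl _)
      have e2 := hle (insert i J) (Finset.subset_insert _ _)
      rw [Finset.sum_insert hi] at e2
      have e3 : ∑ j ∈ J, D j i = 0 := by omega
      exact (Finset.sum_eq_zero_iff.mp e3) j hj
    · exact hj0 j hj i
  have hbi : ∀ i ∈ J, b i = ∑ j ∈ J, D j i :=
    (Finset.sum_eq_sum_iff_of_le fun i _ => h1 i).1 (hle J (Finset.Subset.refl _))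
  have hbj : ∀ j ∈ J, ∑ i ∈ J, D j i = b j := by
    apply (Finset.sum_eq_sum_iff_of_le fun j _ => h2 j J).1
    rw [Finset.sum_comm]
    exact (hle J (Finset.Subset.refl _)).symm
  -- the first moments
  let s : ℤ → ℤ := fun j => ∑ᶠ i : ℤ, (D j i : ℤ) * (i - j)
  have hs : ∀ j, s j = ∑ i ∈ J, (D j i : ℤ) * (i - j) := by
    intro j
    apply finsum_eq_sum_of_support_subset
    intro i hi
    by_contra hi'
    apply hi
    change (D j i : ℤ) * (i - j) = 0
    rw [hi0 i (by simpa using hi') j]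
    simp
  have hs0 : ∀ j, j ∉ J → s j = 0 := by
    intro j hj
    rw [hs]
    exact Finset.sum_eq_zero fun i _ => by rw [hj0 j hj i]; simp
  have hsym : ∀ k : ℕ, s (e - k) = s (e + k) := by
    intro k
    apply finsum_eq_of_bijective (fun i : ℤ => i + 2 * k) (Equiv.addRight (2 * (k : ℤ))).bijective
    intro i
    rw [h4]
    ring
  have hsym' : ∀ j, s (2 * e - j) = s j := by
    intro j
    rcases le_total j e with h | h
    · obtain ⟨k, hk⟩ := Int.eq_ofNat_of_zero_le (sub_nonneg.mpr h)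
      have e1 : j = e - k := by omega
      have e2 : 2 * e - j = e + k := by omega
      rw [e2, e1, hsym k]
    · obtain ⟨k, hk⟩ := Int.eq_ofNat_of_zero_le (sub_nonneg.mpr h)
      have e1 : j = e + k := by omega
      have e2 : 2 * e - j = e - k := by omega
      rw [e2, e1, hsym k]
  have hcross : ∑ j ∈ J, s j * (j - e) = 0 := by
    have e1 : ∑ᶠ j : ℤ, s j * (j - e) = ∑ j ∈ J, s j * (j - e) := by
      apply finsum_eq_sum_of_support_subset
      intro j hj
      by_contra hj'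
      apply hj
      change s j * (j - e) = 0
      rw [hs0 j (by simpa using hj')]
      simp
    have e2 : ∑ᶠ j : ℤ, s j * (j - e) = ∑ᶠ j : ℤ, -(s j * (j - e)) := by
      apply finsum_eq_of_bijective (fun j : ℤ => 2 * e - j) (Equiv.subLeft (2 * e)).bijective
      intro j
      rw [hsym' j]
      ring
    rw [finsum_neg_distrib] at e2
    rw [← e1]
    omega
  have hmom : ∑ j ∈ J, ∑ i ∈ J, (D j i : ℤ) * ((i - e) ^ 2 - (j - e) ^ 2) = 0 := by
    have e1 : ∑ j ∈ J, ∑ i ∈ J, (D j i : ℤ) * (i - e) ^ 2 = ∑ i ∈ J, (b i : ℤ) * (i - e) ^ 2 := by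
      rw [Finset.sum_comm]
      refine Finset.sum_congr rfl fun i hi => ?_
      rw [hbi i hi, Nat.cast_sum, Finset.sum_mul]
    have e2 : ∑ j ∈ J, ∑ i ∈ J, (D j i : ℤ) * (j - e) ^ 2 = ∑ j ∈ J, (b j : ℤ) * (j - e) ^ 2 := by
      refine Finset.sum_congr rfl fun j hj => ?_
      rw [← hbj j hj, Nat.cast_sum, Finset.sum_mul]
    simp only [mul_sub, Finset.sum_sub_distrib]
    rw [e1, e2, sub_self]
  have hsq : ∑ j ∈ J, ∑ i ∈ J, (D j i : ℤ) * (i - j) ^ 2 = 0 := by
    have e1 : ∑ j ∈ J, ∑ i ∈ J, (D j i : ℤ) * ((i - e) ^ 2 - (j - e) ^ 2) =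
        ∑ j ∈ J, ∑ i ∈ J, (D j i : ℤ) * (i - j) ^ 2 + 2 * ∑ j ∈ J, s j * (j - e) := by
      rw [Finset.mul_sum, ← Finset.sum_add_distrib]
      refine Finset.sum_congr rfl fun j _ => ?_
      rw [hs, Finset.sum_mul, Finset.mul_sum, ← Finset.sum_add_distrib]
      refine Finset.sum_congr rfl fun i _ => ?_
      ring
    rw [hmom, hcross] at e1
    simpa using e1.symm
  by_cases hj : j ∈ J
  · by_cases hi : i ∈ J
    · have e1 := (Finset.sum_eq_zero_iff_of_nonneg (fun j _ => Finset.sum_nonneg fun i _ =>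
        mul_nonneg (Int.natCast_nonneg _) (sq_nonneg _))).1 hsq j hj
      have e2 := (Finset.sum_eq_zero_iff_of_nonneg (fun i _ =>
        mul_nonneg (Int.natCast_nonneg _) (sq_nonneg _))).1 e1 i hi
      rcases mul_eq_zero.mp e2 with h | h
      · exact_mod_cast h
      · exact absurd (by nlinarith [h]) hij
    · exact hi0 i hi j
  · exact hj0 j hj i

end Pool.Agent.Q57.MT
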