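import Pool.Agent.Q57.MT.Nice2
import Pool.Agent.Q57.MT.Lef
import Pool.Agent.Q57.MT.Num

/-!
# The generators have compatible truncations
-/

set_option autoImplicit false
set_option linter.unusedSectionVars false
set_option linter.unusedSimpArgs false
set_option backward.isDefEq.respectTransparency false
set_option backward.defeqAttrib.useBackward true

open CategoryTheory Limits MonoidalCategory Pretriangulated Triangulated
open Pool.Agent.Y112.KD (tp asym)
open Pool.Agent.Y116.MT (TensorTriangulated Realisation TExact TensorCompat Hrt twist bounded_of_H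
  conservative)

namespace Pool.Agent.Q57.MT

universe v u w w'

section

variable {C : Type u} [Category.{v} C] [Preadditive C] [HasZeroObject C] [HasShift C ℤ]
  [∀ n : ℤ, (shiftFunctor C n).Additive] [Pretriangulated C] [IsTriangulated C]
  [MonoidalCategory C] [SymmetricCategory C] [TensorTriangulated C] [MonoidalPreadditive C]
  [RightRigidCategory C] {E : Type w} [Field E] (R : Realisation C E) {t : TStructure C}

lemma coh_truncGE_zero (Y : C) (n j : ℤ) (hj : j < n) (hY : t.IsGE Y n) :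
    IsZero (coh t j Y) := by
  have h1 : t.IsGE Y (j + 1) := t.isGE_of_ge Y (j + 1) n (by omega)
  exact (t.truncGE j).map_isZero (t.isZero_truncLT_obj_of_isGE (j + 1) Y)

lemma coh_truncGE (X : C) (n j : ℤ) (hj : n ≤ j) :
    Nonempty (coh t j ((t.truncGE n).obj X) ≅ coh t j X) := by
  have h1 := t.isIso_truncGE_map_truncGEπ_app j n hj X
  exact ⟨(t.truncGELTIsoLTGE j (j + 1)).app _ ≪≫
    ((t.truncLT (j + 1)).mapIso (asIso ((t.truncGE j).map ((t.truncGEπ n).app X)))).symm ≪≫
    (t.truncGELTIsoLTGE j (j + 1)).symm.app X⟩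

/-- An object is nice if its cohomology objects are in the correct degrees. -/
theorem nice_of_coh {P : C} {N : ℕ} (h1 : t.IsLE P N) (h2 : t.IsGE P (-N))
    (hz : ∀ j i : ℤ, i ≠ j → hd R (coh t j P) i = 0) : Nice R.H t P := by
  rw [nice_iff]
  intro n
  refine ⟨⟨inferInstance, fun i hi => ?_⟩, ⟨inferInstance, fun i hi => ?_⟩⟩
  · rw [← hd_zero_iff]
    by_cases hn : n + 1 ≤ -N
    · apply hd_of_isZero
      have h3 : t.IsGE P (n + 1) := t.isGE_of_ge P (n + 1) (-N) hn
      exact t.isZero_truncLT_obj_of_isGE (n + 1) P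
    · have h3 := hd_truncLT R t P (-N) h2 i (n + 1 + N).toNat
      have h4 : -(N : ℤ) + (n + 1 + N).toNat = n + 1 := by omega
      rw [h4] at h3
      rw [← Nat.le_zero]
      refine h3.trans (le_of_eq (Finset.sum_eq_zero fun j hj => hz j i ?_))
      rw [Finset.mem_Ico] at hj
      omega
  · rw [← hd_zero_iff]
    have h3 : t.IsGE ((t.truncGE (n + 1)).obj P) (n + 1) := inferInstance
    have h4 : t.IsLE ((t.truncGE (n + 1)).obj P) (N : ℤ) := inferInstance
    have h5 : t.IsLE ((t.truncGE (n + 1)).obj P) ((N + (n + 1).natAbs : ℕ) : ℤ) :=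
      t.isLE_of_le _ N _ (by omega)
    have h6 : t.IsGE ((t.truncGE (n + 1)).obj P) (-((N + (n + 1).natAbs : ℕ) : ℤ)) :=
      t.isGE_of_ge _ _ (n + 1) (by omega)
    have h7 := hd_sum R t ((t.truncGE (n + 1)).obj P) _ h5 h6 i
    rw [← Nat.le_zero]
    refine h7.trans (le_of_eq (Finset.sum_eq_zero fun j _ => ?_))
    by_cases hjn : j < n + 1
    · exact hd_of_isZero R (coh_truncGE_zero _ (n + 1) j hjn h3) i
    · obtain ⟨e⟩ := coh_truncGE (t := t) P (n + 1) j (by omega)
      rw [hd_iso R e]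
      exact hz j i (by omega)

end

section

variable {C : Type u} [Category.{v} C] [Preadditive C] [HasZeroObject C] [HasShift C ℤ]
  [∀ n : ℤ, (shiftFunctor C n).Additive] [Pretriangulated C] [IsTriangulated C]
  [MonoidalCategory C] [SymmetricCategory C] [TensorTriangulated C] [MonoidalPreadditive C]
  [RightRigidCategory C] [Linear ℚ C] [MonoidalLinear ℚ C] {E : Type w} [Field E] [CharZero E]
  {R : Realisation C E} {t : TStructure C} {E' : Type w'} [Field E'] [CharZero E']
  (R' : Realisation C E')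
  (ht : TensorCompat t) (he : TExact t R) (hu : Hrt t (𝟙_ C))
  (hid : ∀ e : 𝟙_ C ⟶ 𝟙_ C, e ≫ e = e → e = 0 ∨ e = 𝟙 _)
  (hle : ∀ X : C, (∀ n : ℤ, t.le n X) → IsZero X)
  (hge : ∀ X : C, (∀ n : ℤ, t.ge n X) → IsZero X)

include ht he hu hid in
lemma coh_total (X : C) (j : ℤ) (s : Finset ℤ) :
    ∑ i ∈ s, hd R' (coh t j X) i ≤ hd R X j := by
  have hZ : Hrt t ((coh t j X)⟦j⟧) := ⟨@TStructure.isLE_shift _ _ _ _ _ _ _ t _ j j 0 (by omega)
    (coh_le t j X), @TStructure.isGE_shift _ _ _ _ _ _ _ t _ j j 0 (by omega) (coh_ge t j X)⟩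
  obtain ⟨M, hM⟩ : ∃ M : ℕ, ∀ i ∈ s, (i - j).natAbs ≤ M :=
    ⟨s.sup fun i => (i - j).natAbs, fun i hi => Finset.le_sup (f := fun i => (i - j).natAbs) hi⟩
  have h1 := heart_total ht he hu hid R' hZ M
  have h2 : Module.finrank E (R.H.obj ((coh t j X)⟦j⟧)) = hd R X j := hd_coh he X j
  rw [h2] at h1
  refine le_trans ?_ h1
  have h3 : ∑ i ∈ Finset.Icc (-(M : ℤ)) M, hd R' ((coh t j X)⟦j⟧) i =
      ∑ i ∈ Finset.Icc (j - M) (j + M), hd R' (coh t j X) i := by
    refine Finset.sum_nbij' (fun i => j + i) (fun i => i - j) ?_ ?_ ?_ ?_ ?_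
    · intro i hi
      rw [Finset.mem_Icc] at hi ⊢
      omega
    · intro i hi
      rw [Finset.mem_Icc] at hi ⊢
      omega
    · intro i _
      ring
    · intro i _
      ring
    · intro i _
      exact hd_shift R' _ j i (j + i) rfl
  rw [h3]
  refine Finset.sum_le_sum_of_subset fun i hi => ?_
  have := hM i hi
  rw [Finset.mem_Icc]
  omega

include ht he hu hid hle hge in
/-- A generator which satisfies the hard Lefschetz theorem and whose Betti numbers are the same
for both realisations has cohomology objects in the correct degrees. -/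
theorem coh_gen {T T' P : C} (eT : T ⊗ T' ≅ 𝟙_ C) (hT : R.Deg T (-2)) (hT' : R'.Deg T (-2))
    (e : ℤ) (hL : ∀ k : ℕ, ∃ L : P ⟶ twist T P k, IsIso (R.H.map (L⟦e - k⟧')))
    (hb : ∀ i : ℤ, hd R' P i = hd R P i) (j i : ℤ) (hij : i ≠ j) : hd R' (coh t j P) i = 0 := by
  obtain ⟨N, h1, h2⟩ := bounded_of_H ht he hu hid hle hge P
  have hc := fun X => conservative ht he hu hid hle hge (X := X)
  have hT1 : t.IsLE T (-2) := Pool.Agent.Y116.MT.isLE_of_H ht he hu hid hle hge
    fun i hi => hT i (by omega)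
  have hT2 : t.IsGE T (-2) := Pool.Agent.Y116.MT.isGE_of_H ht he hu hid hle hge
    fun i hi => hT i (by omega)
  refine second_moment (fun j i => hd R' (coh t j P) i) (fun i => hd R P i) N e ?_ ?_ ?_ ?_ j i hij
  · intro i
    rw [← hb i]
    exact hd_sum R' t P N h1 h2 i
  · intro j s
    exact coh_total R' ht he hu hid P j s
  · intro j hj
    rw [Finset.mem_Icc] at hj
    rw [hd_zero_iff]
    by_cases h3 : j < -N
    · exact he.isGE h2 j h3
    · exact he.isLE h1 j (by omega)
  · intro k i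
    obtain ⟨L, hL⟩ := hL k
    have h3 := isIso_coh_map he hc L (e - k) hL
    change hd R' (coh t (e - k) P) i = hd R' (coh t (e + k) P) (i + 2 * k)
    rw [hd_iso R' (asIso ((t.truncGELT (e - k) (e - k + 1)).map L)),
      hd_coh_twist R' ht hT1 hT2 hT' eT P k (e - k) i]
    congr 2
    ring

include ht he hu hid in
lemma even_of_heart : Even' R'.H t := by
  intro Z n h1 h2 i hi
  have hZ : Hrt t (Z⟦n⟧) := ⟨t.isLE_shift Z n n 0, t.isGE_shift Z n n 0⟩
  have h3 := heart_odd ht he hu hid R' hZ hi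
  exact h3.of_iso (R'.H.mapIso ((shiftFunctorAdd' C n (i - n) i (by omega)).app Z))

include ht he hu hid hle hge in
/-- t-exactness of the other realisation. -/
theorem exact_other {T T' : C} (eT : T ⊗ T' ≅ 𝟙_ C) (hT : R.Deg T (-2)) (hT' : R'.Deg T (-2))
    {Q : ObjectProperty C} (hgen : Q.IsClassicalTriangulatedGenerator)
    (hL : ∀ P, Q P → ∃ e : ℤ, ∀ k : ℕ, ∃ L : P ⟶ twist T P k, IsIso (R.H.map (L⟦e - k⟧')))
    (hb : ∀ P, Q P → ∀ i : ℤ, hd R' P i = hd R P i) : TExact t R' := by
  have hQ : Q ≤ Nice R'.H t := by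
    intro P hP
    obtain ⟨e, he'⟩ := hL P hP
    obtain ⟨N, h1, h2⟩ := bounded_of_H ht he hu hid hle hge P
    exact nice_of_coh R' h1 h2
      (coh_gen R' ht he hu hid hle hge eT hT hT' e he' (hb P hP))
  have hn := nice_of_generate (even_of_heart R' ht he hu hid) hQ hgen
  exact ⟨fun X hX i hi => (hn X).exact_le hX i hi, fun X hX i hi => (hn X).exact_ge hX i hi⟩

end

end Pool.Agent.Q57.MT
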