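import Pool.Agent.Q57.MT.Defs
import Pool.Agent.Q57.MT.Gen

/-!
# The t-structure defined by a conservative realisation
-/

set_option autoImplicit false
set_option linter.unusedSectionVars false
set_option linter.unusedSimpArgs false
set_option backward.isDefEq.respectTransparency false
set_option backward.defeqAttrib.useBackward true

open CategoryTheory Limits MonoidalCategory Pretriangulated Triangulated
open Pool.Agent.Y116.MT (TensorTriangulated Realisation TExact TensorCompat Hrt twist bounded_of_H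
  hz1 hz2 hz3 hmono1 hmono2 hepi1 hepi2 rotD rShift IsMotivic comp31 tensor_subsingleton_left
  tensor_subsingleton_right)

namespace Pool.Agent.Q57.MT

universe v u w w'

open Functor.LaxMonoidal

section

variable {C : Type u} [Category.{v} C] [Preadditive C] [HasZeroObject C] [HasShift C ℤ]
  [∀ n : ℤ, (shiftFunctor C n).Additive] [Pretriangulated C] [MonoidalCategory C]
  [SymmetricCategory C] [TensorTriangulated C] {E : Type w} [Field E] (R : Realisation C E)

/-- The objects in degrees `≤ n`. -/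
def rle (n : ℤ) : ObjectProperty C := fun X => ∀ i : ℤ, n < i → IsZero (R.H.obj (X⟦i⟧))

/-- The objects in degrees `≥ n`. -/
def rge (n : ℤ) : ObjectProperty C := fun X => ∀ i : ℤ, i < n → IsZero (R.H.obj (X⟦i⟧))

instance (n : ℤ) : (rle R n).IsClosedUnderIsomorphisms where
  of_iso e h := fun i hi => (h i hi).of_iso (R.H.mapIso ((shiftFunctor C i).mapIso e.symm))

instance (n : ℤ) : (rge R n).IsClosedUnderIsomorphisms where
  of_iso e h := fun i hi => (h i hi).of_iso (R.H.mapIso ((shiftFunctor C i).mapIso e.symm))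

variable {R}

lemma rle_shift {n a n' : ℤ} (h : a + n' = n) {X : C} (hX : rle R n X) : rle R n' (X⟦a⟧) :=
  fun i hi => (hX (a + i) (by omega)).of_iso
    (R.H.mapIso ((shiftFunctorAdd' C a i (a + i) rfl).symm.app X))

lemma rge_shift {n a n' : ℤ} (h : a + n' = n) {X : C} (hX : rge R n X) : rge R n' (X⟦a⟧) :=
  fun i hi => (hX (a + i) (by omega)).of_iso
    (R.H.mapIso ((shiftFunctorAdd' C a i (a + i) rfl).symm.app X))

lemma isIso_of_H (hc : Conservative R) {X Y : C} (f : X ⟶ Y)
    (h : ∀ i : ℤ, IsIso (R.H.map (f⟦i⟧'))) : IsIso f := by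
  let _ := Functor.ShiftSequence.tautological R.H ℤ
  have h1 := (R.H.mem_homologicalKernel_trW_iff f).2 h
  obtain ⟨Z, g, k, hT, hZ⟩ := h1
  exact Pool.Agent.Y116.MT.isIso1_of_isZero3 hT (hc Z hZ)

lemma trunc_at (htr : HasTruncations R) (X : C) (n : ℤ) :
    ∃ (A B : C) (f : A ⟶ X) (g : X ⟶ B) (h : B ⟶ A⟦(1 : ℤ)⟧),
      Triangle.mk f g h ∈ distTriang C ∧ rle R n A ∧ rge R (n + 1) B := by
  obtain ⟨A, B, f, g, h, mem, hA, hB⟩ := htr (X⟦n⟧)
  let T := (Triangle.shiftFunctor C (-n)).obj (Triangle.mk f g h)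
  let e := (shiftEquiv C n).unitIso.symm.app X
  have hT' : Triangle.mk (T.mor₁ ≫ e.hom) (e.inv ≫ T.mor₂) T.mor₃ ∈ distTriang C := by
    refine isomorphic_distinguished _ (Triangle.shift_distinguished _ mem (-n)) _ ?_
    refine Triangle.isoMk _ _ (Iso.refl _) e.symm (Iso.refl _) ?_ ?_ ?_
    all_goals simp [T]
  exact ⟨_, _, _, _, _, hT', rle_shift (neg_add_cancel n) hA, rge_shift (by omega) hB⟩

/-- Orthogonality is automatic. -/
theorem orthogonal (hc : Conservative R) (htr : HasTruncations R) {X Y : C} (f : X ⟶ Y)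
    (hX : rle R 0 X) (hY : rge R 1 Y) : f = 0 := by
  obtain ⟨W, g, d, hT⟩ := distinguished_cocone_triangle f
  obtain ⟨A, B, a, b, c, hW, hA, hB⟩ := trunc_at htr W (-1)
  have h1 : IsIso (a ≫ d) := by
    apply isIso_of_H hc
    intro i
    by_cases hi : i ≤ -1
    · have e1 : Mono (R.H.map (a⟦i⟧')) := hmono1 R.H hW i (hB _ (by omega))
      have e2 : Epi (R.H.map (a⟦i⟧')) := hepi1 R.H hW i (hB _ (by omega))
      have e3 : Mono (R.H.map (d⟦i⟧')) := hmono2 R.H (rotD hT) i (hY _ (by omega))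
      have e4 : Epi (R.H.map (d⟦i⟧')) := hepi2 R.H (rotD hT) i (hY _ (by omega))
      have e5 : IsIso (R.H.map (a⟦i⟧')) := isIso_of_mono_of_epi _
      have e6 : IsIso (R.H.map (d⟦i⟧')) := isIso_of_mono_of_epi _
      rw [Functor.map_comp, Functor.map_comp]
      infer_instance
    · have e1 : IsZero (R.H.obj (A⟦i⟧)) := hA i (by omega)
      have e2 : IsZero (R.H.obj (X⟦(1 : ℤ)⟧⟦i⟧)) := (hX (1 + i) (by omega)).of_iso
        (R.H.mapIso ((shiftFunctorAdd' C 1 i (1 + i) rfl).symm.app X))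
      exact ⟨0, e1.eq_of_src _ _, e2.eq_of_src _ _⟩
  have h2 : (inv (a ≫ d) ≫ a) ≫ d = 𝟙 _ := by simp
  have h3 : f⟦(1 : ℤ)⟧' = 0 := by
    rw [← Category.id_comp (f⟦(1 : ℤ)⟧'), ← h2, Category.assoc, comp31 hT, comp_zero]
  exact (shiftFunctor C (1 : ℤ)).map_injective (by rw [h3, Functor.map_zero])

/-- The t-structure defined by a conservative realisation whose truncations lift. -/
noncomputable def tOf (hc : Conservative R) (htr : HasTruncations R) : TStructure C where
  le := rle R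
  ge := rge R
  le_shift _ _ _ h _ hX := rle_shift h hX
  ge_shift _ _ _ h _ hX := rge_shift h hX
  zero' _ _ f hX hY := orthogonal hc htr f hX hY
  le_zero_le _ hX := fun i hi => hX i (by omega)
  ge_one_le _ hX := fun i hi => hX i (by omega)
  exists_triangle_zero_one X := by
    obtain ⟨A, B, f, g, h, hT, hA, hB⟩ := htr X
    exact ⟨A, B, hA, hB, f, g, h, hT⟩

lemma rle_tensor {X Y : C} (hX : rle R 0 X) (hY : rle R 0 Y) : rle R 0 (X ⊗ Y) := by
  intro n hn
  have h0 : IsZero (R.H.obj (X ⊗ Y⟦n⟧)) := by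
    rw [ModuleCat.isZero_iff_subsingleton]
    have h1 : ∀ i : ℤ, Subsingleton (R.H.obj (X⟦i⟧) ⊗ R.H.obj (Y⟦n⟧⟦-i⟧) : ModuleCat.{w} E) := by
      intro i
      by_cases hi : 0 < i
      · exact tensor_subsingleton_left (hX i hi)
      · exact tensor_subsingleton_right ((hY (n + -i) (by omega)).of_iso
          (R.H.mapIso ((shiftFunctorAdd C n (-i)).app Y).symm))
    have h2 : Subsingleton (DirectSum ℤ (fun i : ℤ =>
        (R.H.obj (X⟦i⟧) ⊗ R.H.obj (Y⟦n⟧⟦-i⟧) : ModuleCat.{w} E))) := by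
      constructor
      intro x y
      ext i
      have := h1 i
      exact Subsingleton.elim _ _
    exact (R.kunneth X (Y⟦n⟧)).2.subsingleton
  exact h0.of_iso (R.H.mapIso (rShift X Y n).symm)

lemma rge_tensor {X Y : C} (hX : rge R 0 X) (hY : rge R 0 Y) : rge R 0 (X ⊗ Y) := by
  intro n hn
  have h0 : IsZero (R.H.obj (X ⊗ Y⟦n⟧)) := by
    rw [ModuleCat.isZero_iff_subsingleton]
    have h1 : ∀ i : ℤ, Subsingleton (R.H.obj (X⟦i⟧) ⊗ R.H.obj (Y⟦n⟧⟦-i⟧) : ModuleCat.{w} E) := by
      intro i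
      by_cases hi : i < 0
      · exact tensor_subsingleton_left (hX i hi)
      · exact tensor_subsingleton_right ((hY (n + -i) (by omega)).of_iso
          (R.H.mapIso ((shiftFunctorAdd C n (-i)).app Y).symm))
    have h2 : Subsingleton (DirectSum ℤ (fun i : ℤ =>
        (R.H.obj (X⟦i⟧) ⊗ R.H.obj (Y⟦n⟧⟦-i⟧) : ModuleCat.{w} E))) := by
      constructor
      intro x y
      ext i
      have := h1 i
      exact Subsingleton.elim _ _
    exact (R.kunneth X (Y⟦n⟧)).2.subsingleton
  exact h0.of_iso (R.H.mapIso (rShift X Y n).symm)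

/-- The t-structure defined by a conservative realisation is motivic for this realisation. -/
theorem motivic_tOf (hc : Conservative R) (htr : HasTruncations R) :
    IsMotivic (tOf hc htr) (fun _ : Unit => R) where
  nondeg_le X h := hc X fun i => h (i - 1) i (by omega)
  nondeg_ge X h := hc X fun i => h (i + 1) i (by omega)
  tensor_le _ _ hX hY := rle_tensor hX hY
  tensor_ge _ _ hX hY := rge_tensor hX hY
  exact_le _ _ hX := hX
  exact_ge _ _ hX := hX

end

section

variable {C : Type u} [Category.{v} C] [Preadditive C] [HasZeroObject C] [HasShift C ℤ]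
  [∀ n : ℤ, (shiftFunctor C n).Additive] [Pretriangulated C] [IsTriangulated C]
  [MonoidalCategory C] [SymmetricCategory C] [TensorTriangulated C] [MonoidalPreadditive C]
  [RightRigidCategory C] [Linear ℚ C] [MonoidalLinear ℚ C]

/-- The main theorem: the existence of a motivic t-structure is independent of the realisation. -/
theorem main (hid : ∀ e : 𝟙_ C ⟶ 𝟙_ C, e ≫ e = e → e = 0 ∨ e = 𝟙 _)
    {Λ : Type*} {E : Λ → Type w} [∀ l, Field (E l)] [∀ l, CharZero (E l)]
    (R : ∀ l, Realisation C (E l)) (l₀ : Λ) (Q : ObjectProperty C) (T : C)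
    (hQ : LefschetzGenerated Q T R l₀) :
    List.TFAE [∃ t : TStructure C, IsMotivic t R,
      ∃ t : TStructure C, IsMotivic t (fun _ : Unit => R l₀),
      Conservative (R l₀) ∧ HasTruncations (R l₀)] := by
  tfae_have 1 → 2 := by
    rintro ⟨t, ht⟩
    exact ⟨t, ht.nondeg_le, ht.nondeg_ge, ht.tensor_le, ht.tensor_ge, fun _ => ht.exact_le l₀,
      fun _ => ht.exact_ge l₀⟩
  tfae_have 2 → 3 := by
    rintro ⟨t, ht⟩
    have htc : TensorCompat t := ⟨ht.tensor_le, ht.tensor_ge⟩
    have he : TExact t (R l₀) := ⟨ht.exact_le (), ht.exact_ge ()⟩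
    have hu := Pool.Agent.Y116.MT.unit_hrt htc ht.nondeg_le ht.nondeg_ge
    refine ⟨fun X hX => Pool.Agent.Y116.MT.conservative htc he hu hid ht.nondeg_le ht.nondeg_ge hX,
      fun X => ?_⟩
    obtain ⟨A, B, hA, hB, f, g, h, hT⟩ := t.exists_triangle X 0 1 rfl
    exact ⟨A, B, f, g, h, hT, fun i hi => he.isLE ⟨hA⟩ i hi, fun i hi => he.isGE ⟨hB⟩ i hi⟩
  tfae_have 3 → 1 := by
    rintro ⟨hc, htr⟩
    have ht := motivic_tOf hc htr
    refine ⟨tOf hc htr, ?_⟩
    have htc : TensorCompat (tOf hc htr) := ⟨ht.tensor_le, ht.tensor_ge⟩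
    have he : TExact (tOf hc htr) (R l₀) := ⟨ht.exact_le (), ht.exact_ge ()⟩
    have hu := Pool.Agent.Y116.MT.unit_hrt htc ht.nondeg_le ht.nondeg_ge
    obtain ⟨T', ⟨eT⟩⟩ := hQ.invertible
    have hex : ∀ l, TExact (tOf hc htr) (R l) := fun l =>
      exact_other (R l) htc he hu hid ht.nondeg_le ht.nondeg_ge eT (hQ.degree l₀) (hQ.degree l)
        hQ.generate hQ.lefschetz (fun P hP => hQ.betti P hP l)
    exact ⟨ht.nondeg_le, ht.nondeg_ge, ht.tensor_le, ht.tensor_ge, fun l => (hex l).le,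
      fun l => (hex l).ge⟩
  tfae_finish

end

end Pool.Agent.Q57.MT
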