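import Pool.Agent.Q57.MT.Sign
import Pool.Agent.Y116.MT.AltFun

/-!
# Symmetrizers of vector spaces
-/

set_option autoImplicit false
set_option linter.unusedSectionVars false
set_option linter.unusedSimpArgs false

open CategoryTheory Limits MonoidalCategory
open Pool.Agent.Y112.KD (tp IsSwap sw asym swap_asym asym_main sw_nat sw_nat_left asym_nat
  tpm asym_succ asym_zero asym_one)

namespace Pool.Agent.Q57.MT

universe v u w

section

variable {C : Type u} [Category.{v} C] [MonoidalCategory C] [SymmetricCategory C]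
  [Preadditive C] [Linear ℚ C] [MonoidalPreadditive C] [MonoidalLinear ℚ C]

/-- The tensor product of vectors. -/
def tenv {V : C} (x : ℕ → (𝟙_ C ⟶ V)) : ∀ n : ℕ, (𝟙_ C ⟶ tp V n)
  | 0 => 𝟙 _
  | n + 1 => (λ_ (𝟙_ C)).inv ≫ (tenv x n ⊗ₘ x n)

/-- The tensor product of covectors. -/
def tenf {V : C} (f : ℕ → (V ⟶ 𝟙_ C)) : ∀ n : ℕ, (tp V n ⟶ 𝟙_ C)
  | 0 => 𝟙 _
  | n + 1 => (tenf f n ⊗ₘ f n) ≫ (λ_ (𝟙_ C)).hom

lemma smul_tensor {X Y Z W : C} (a : ℚ) (f : X ⟶ Y) (g : Z ⟶ W) :
    (a • f) ⊗ₘ g = a • (f ⊗ₘ g) := by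
  simp [MonoidalCategory.tensorHom_def, MonoidalLinear.smul_whiskerRight, Linear.smul_comp]

lemma tensor_zero' {X Y Z W : C} (f : X ⟶ Y) :
    f ⊗ₘ (0 : Z ⟶ W) = 0 := by
  have : Y ◁ (0 : Z ⟶ W) = 0 := (tensorLeft Y).map_zero _ _
  rw [MonoidalCategory.tensorHom_def, this, comp_zero]

lemma zero_tensor' {X Y Z W : C} (f : X ⟶ Y) :
    (0 : Z ⟶ W) ⊗ₘ f = 0 := by
  have : (0 : Z ⟶ W) ▷ X = 0 := (tensorRight X).map_zero _ _
  rw [MonoidalCategory.tensorHom_def, this, zero_comp]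

lemma ten_kill {η : ℚ} {V : C} (x : ℕ → (𝟙_ C ⟶ V)) (f : V ⟶ 𝟙_ C) (y : 𝟙_ C ⟶ V)
    (hy : y ≫ f = 𝟙 _) (n : ℕ) (hx : ∀ i < n + 1, x i ≫ f = 0) :
    tenv x (n + 1) ≫ asym η V (n + 1) ≫ (tp V n ◁ f) = 0 := by
  have h1 : ∀ m ≤ n + 1, tenv x m ≫ tpm (𝟙 V - f ≫ y) m = tenv x m := by
    intro m hm
    induction m with
    | zero => simp [tenv, tpm]
    | succ m ih =>
      rw [tenv, tpm, Category.assoc, tensorHom_comp_tensorHom, ih (by omega)]
      congr 2
      rw [Preadditive.comp_sub, Category.comp_id, ← Category.assoc, hx m (by omega), zero_comp,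
        sub_zero]
  rw [← h1 (n + 1) le_rfl, Category.assoc, reassoc_of% (asym_nat (η := η) (𝟙 V - f ≫ y) (n + 1))]
  have h2 : tpm (𝟙 V - f ≫ y) (n + 1) ≫ (tp V n ◁ f) = 0 := by
    have h3 : (𝟙 V - f ≫ y) ≫ f = 0 := by
      rw [Preadditive.sub_comp, Category.id_comp, Category.assoc, hy, Category.comp_id, sub_self]
    rw [tpm, ← id_tensorHom, tensorHom_comp_tensorHom, h3, tensor_zero']
  rw [h2, comp_zero, comp_zero]

lemma sw_kill {V : C} (n : ℕ) (f : V ⟶ 𝟙_ C) :
    sw (tp V n) V ≫ ((tp V n ⊗ V) ◁ f) = ((tp V n ◁ f) ▷ V) ≫ (α_ _ _ _).hom ≫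
      (tp V n ◁ (β_ (𝟙_ C) V).hom) ≫ (α_ _ _ _).inv := by
  simp only [sw, Category.assoc]
  rw [tensor_whiskerLeft]
  simp only [Category.assoc, Iso.inv_hom_id_assoc]
  rw [← MonoidalCategory.whiskerLeft_comp_assoc, ← BraidedCategory.braiding_naturality_left,
    MonoidalCategory.whiskerLeft_comp_assoc, whisker_assoc]
  simp only [Category.assoc, Iso.inv_hom_id_assoc]

lemma ten_pair {η : ℚ} {V : C} (x : ℕ → (𝟙_ C ⟶ V)) (f : ℕ → (V ⟶ 𝟙_ C)) (n : ℕ)
    (h1 : ∀ i < n, x i ≫ f i = 𝟙 _) (h2 : ∀ i < n, ∀ j < n, i ≠ j → x i ≫ f j = 0) :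
    tenv x n ≫ asym η V n ≫ tenf f n = (n.factorial : ℚ)⁻¹ • 𝟙 _ := by
  induction n with
  | zero => simp [tenv, tenf, asym_zero]
  | succ n ih =>
    rcases n with - | n
    · simp [tenv, tenf, asym_one, h1 0 (by omega)]
    · have ih' := ih (fun i hi => h1 i (by omega)) (fun i hi j hj => h2 i (by omega) j (by omega))
      have e1 : tenv x (n + 2) ≫ (asym η V (n + 1) ▷ V) ≫ tenf f (n + 2) =
          ((n + 1).factorial : ℚ)⁻¹ • 𝟙 _ := by
        rw [tenv, tenf, Category.assoc, ← tensorHom_id, tensorHom_comp_tensorHom_assoc,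
          tensorHom_comp_tensorHom_assoc, Category.comp_id, Category.assoc, ih',
          h1 (n + 1) (by omega), smul_tensor, Linear.smul_comp, Linear.comp_smul,
          id_tensorHom_id]
        simp
      have e2 : tenv x (n + 2) ≫ ((asym η V (n + 1) ▷ V) ≫ sw (tp V n) V ≫
          (asym η V (n + 1) ▷ V)) ≫ tenf f (n + 2) = 0 := by
        have e3 : (asym η V (n + 1) ▷ V) ≫ tenf f (n + 2) = ((tp V n ⊗ V) ◁ f (n + 1)) ≫
            ((asym η V (n + 1) ≫ tenf f (n + 1)) ▷ 𝟙_ C) ≫ (λ_ (𝟙_ C)).hom := by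
          rw [tenf, ← tensorHom_id, tensorHom_comp_tensorHom_assoc, Category.id_comp,
            MonoidalCategory.tensorHom_def', Category.assoc]
        have e4 := ten_kill (η := η) x (f (n + 1)) (x (n + 1)) (h1 _ (by omega)) n
          (fun i hi => h2 i (by omega) (n + 1) (by omega) (by omega))
        simp only [Category.assoc]
        rw [e3, reassoc_of% (sw_kill n (f (n + 1)))]
        have e5 : tenv x (n + 2) ≫ (asym η V (n + 1) ▷ V) ≫ ((tp V n ◁ f (n + 1)) ▷ V) = 0 := by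
          rw [tenv, Category.assoc, ← tensorHom_id, ← tensorHom_id, tensorHom_comp_tensorHom_assoc,
            tensorHom_comp_tensorHom, Category.assoc, e4, zero_tensor', comp_zero]
        rw [reassoc_of% e5, zero_comp]
      rw [asym_succ, Linear.smul_comp, Linear.comp_smul, Preadditive.add_comp,
        Preadditive.comp_add, e1, Linear.smul_comp, Linear.comp_smul, e2, smul_zero, add_zero,
        smul_smul, Nat.factorial_succ (n + 1)]
      push_cast
      rw [mul_inv]

lemma ten_sym {V : C} (x : 𝟙_ C ⟶ V) (n : ℕ) :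
    tenv (fun _ => x) n ≫ asym 1 V n = tenv (fun _ => x) n := by
  induction n with
  | zero => simp [asym_zero]
  | succ n ih =>
    rcases n with - | n
    · simp [asym_one]
    · have e1 : tenv (fun _ => x) (n + 2) ≫ (asym 1 V (n + 1) ▷ V) = tenv (fun _ => x) (n + 2) := by
        rw [tenv, Category.assoc, ← tensorHom_id, tensorHom_comp_tensorHom, ih, Category.comp_id]
      have e2 : tenv (fun _ => x) (n + 2) ≫ sw (tp V n) V = tenv (fun _ => x) (n + 2) := by
        have e3 : tenv (fun _ => x) (n + 2) = (λ_ (𝟙_ C)).inv ≫ ((λ_ (𝟙_ C)).inv ▷ 𝟙_ C) ≫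
            ((tenv (fun _ => x) n ⊗ₘ x) ⊗ₘ x) := by
          rw [tenv, tenv, ← tensorHom_id, tensorHom_comp_tensorHom, Category.id_comp]
        have e4 : sw (𝟙_ C) (𝟙_ C) = 𝟙 _ := by
          have h := scal_unit (C := C)
          rw [Scal, one_smul] at h
          simp only [sw]
          rw [h]
          simp
        rw [e3, Category.assoc, Category.assoc, sw_nat, e4, Category.id_comp]
      have hn : ((n + 1 : ℕ) : ℚ) + 1 ≠ 0 := by positivity
      rw [asym_succ, Linear.comp_smul, Preadditive.comp_add, e1, Linear.comp_smul,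
        reassoc_of% e1, reassoc_of% e2, e1, one_mul]
      have e5 : tenv (fun _ => x) (n + 2) + ((n + 1 : ℕ) : ℚ) • tenv (fun _ => x) (n + 2) =
        (((n + 1 : ℕ) : ℚ) + 1) • tenv (fun _ => x) (n + 2) := by module
      rw [e5, smul_smul, inv_mul_cancel₀ hn, one_smul]

lemma ten_pair_one {V : C} (x : 𝟙_ C ⟶ V) (f : V ⟶ 𝟙_ C) (h : x ≫ f = 𝟙 _) (n : ℕ) :
    tenv (fun _ => x) n ≫ tenf (fun _ => f) n = 𝟙 _ := by
  induction n with
  | zero => simp [tenv, tenf]
  | succ n ih =>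
    rw [tenv, tenf, Category.assoc, tensorHom_comp_tensorHom_assoc, ih, h]
    simp

end

section

variable {E : Type w} [Field E] [CharZero E]

lemma rat_smul_eq {X Y : ModuleCat.{w} E} (r : ℚ) (f : X ⟶ Y) : r • f = (r : E) • f := by
  ext x
  change (algebraMap ℚ E r) • f.hom x = (r : E) • f.hom x
  rw [eq_ratCast]

instance : MonoidalLinear ℚ (ModuleCat.{w} E) where
  whiskerLeft_smul X Y Z r f := by
    rw [rat_smul_eq, rat_smul_eq, MonoidalLinear.whiskerLeft_smul]
  smul_whiskerRight r Y Z f X := by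
    rw [rat_smul_eq, rat_smul_eq, MonoidalLinear.smul_whiskerRight]

/-- A vector as a morphism. -/
def vecHom {V : ModuleCat.{w} E} (v : V) : 𝟙_ (ModuleCat.{w} E) ⟶ V :=
  ModuleCat.ofHom (LinearMap.toSpanSingleton E V v)

/-- A covector as a morphism. -/
def covHom {V : ModuleCat.{w} E} (f : V →ₗ[E] E) : V ⟶ 𝟙_ (ModuleCat.{w} E) :=
  ModuleCat.ofHom f

lemma vec_cov {V : ModuleCat.{w} E} (v : V) (f : V →ₗ[E] E) :
    vecHom v ≫ covHom f = f v • 𝟙 _ := by
  ext
  change f ((1 : E) • v) = f v • (1 : E)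
  simp

lemma id_unit_ne : (𝟙 (𝟙_ (ModuleCat.{w} E))) ≠ 0 := by
  intro h
  have h1 := LinearMap.congr_fun (congrArg ModuleCat.Hom.hom h) (1 : E)
  exact one_ne_zero h1

/-- The dimension of a vector space which is killed by an exterior power. -/
theorem finrank_lt_of_asym {V : ModuleCat.{w} E} [Module.Finite E V] {n : ℕ}
    (h : asym (-1) V n = 0) : Module.finrank E V < n := by
  by_contra hlt
  push Not at hlt
  let b := Module.finBasis E V
  let x : ℕ → V := fun i => if hi : i < Module.finrank E V then b ⟨i, hi⟩ else 0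
  let f : ℕ → (V →ₗ[E] E) := fun i => if hi : i < Module.finrank E V then b.coord ⟨i, hi⟩ else 0
  have key := ten_pair (η := -1) (fun i => vecHom (x i)) (fun i => covHom (f i)) n
    (fun i hi => by
      have hi' : i < Module.finrank E V := by omega
      simp only [vec_cov, x, f, hi', dif_pos, Module.Basis.coord_apply, Module.Basis.repr_self,
        Finsupp.single_eq_same, one_smul])
    (fun i hi j hj hij => by
      have hi' : i < Module.finrank E V := by omega
      have hj' : j < Module.finrank E V := by omega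
      simp only [vec_cov, x, f, hi', hj', dif_pos, Module.Basis.coord_apply,
        Module.Basis.repr_self]
      rw [Finsupp.single_eq_of_ne, zero_smul]
      simp only [ne_eq, Fin.mk.injEq]
      omega)
  rw [h, zero_comp, comp_zero] at key
  apply id_unit_ne (E := E)
  have key' : 0 = (((n.factorial : ℚ)⁻¹ : ℚ) : E) • 𝟙 (𝟙_ (ModuleCat.{w} E)) :=
    key.trans (rat_smul_eq _ _)
  have h3 : (((n.factorial : ℚ)⁻¹ : ℚ) : E) ≠ 0 := by
    have h4 : ((n.factorial : ℚ)⁻¹ : ℚ) ≠ 0 := by positivity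
    exact_mod_cast h4
  rw [← inv_smul_smul₀ h3 (𝟙 (𝟙_ (ModuleCat.{w} E))), ← key', smul_zero]

/-- A vector space which is killed by a symmetric power vanishes. -/
theorem isZero_of_asym {V : ModuleCat.{w} E} {n : ℕ} (h : asym 1 V n = 0) : IsZero V := by
  rw [ModuleCat.isZero_iff_subsingleton]
  by_contra hV
  rw [not_subsingleton_iff_nontrivial] at hV
  obtain ⟨v, hv⟩ := exists_ne (0 : V)
  have h1 : ∃ f : V →ₗ[E] E, f v ≠ 0 := by
    by_contra hcon
    push Not at hcon
    exact hv ((Module.forall_dual_apply_eq_zero_iff E v).mp hcon)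
  obtain ⟨f, hf⟩ := h1
  have h2 := ten_pair_one (vecHom v) (covHom ((f v)⁻¹ • f)) (by
    rw [vec_cov, LinearMap.smul_apply, smul_eq_mul, inv_mul_cancel₀ hf, one_smul]) n
  rw [← ten_sym, h, comp_zero, zero_comp] at h2
  exact id_unit_ne (E := E) h2.symm

end

end Pool.Agent.Q57.MT
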