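import Pool.Agent.Y116.MT.Deg

/-!
# Truncations lifted to motives, and the hard Lefschetz theorem
-/

set_option autoImplicit false

open CategoryTheory Limits MonoidalCategory Pretriangulated Triangulated
open Pool.Agent.Y116.MT (TensorTriangulated Realisation twist)

namespace Pool.Agent.Q57.MT

universe v u w

section

variable {C : Type u} [Category.{v} C] [Preadditive C] [HasZeroObject C] [HasShift C ℤ]
  [∀ n : ℤ, (shiftFunctor C n).Additive] [Pretriangulated C] [MonoidalCategory C]
  [SymmetricCategory C] [TensorTriangulated C]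

/-- The realisation `R` is conservative: an object with vanishing realisation vanishes. -/
def Conservative {E : Type w} [Field E] (R : Realisation C E) : Prop :=
  ∀ X : C, (∀ i : ℤ, IsZero (R.H.obj (X⟦i⟧))) → IsZero X

/-- The truncations of the realisations lift to objects of `C`: every object `X` of `C` sits in a
distinguished triangle `A ⟶ X ⟶ B ⟶ A⟦1⟧` such that the realisation of `A` is concentrated in
degrees `≤ 0` and the realisation of `B` is concentrated in degrees `≥ 1`. No functoriality is
asked for. -/
def HasTruncations {E : Type w} [Field E] (R : Realisation C E) : Prop :=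
  ∀ X : C, ∃ (A B : C) (f : A ⟶ X) (g : X ⟶ B) (h : B ⟶ A⟦(1 : ℤ)⟧),
    Triangle.mk f g h ∈ distTriang C ∧
    (∀ i : ℤ, 0 < i → IsZero (R.H.obj (A⟦i⟧))) ∧
    (∀ i : ℤ, i < 1 → IsZero (R.H.obj (B⟦i⟧)))

/-- The family `Q` (in the category of motives: the motives `M(X)(m)[2m]` of smooth projective
varieties `X` of pure dimension) generates `C`; `T` (in the category of motives: `𝟙(1)[2]`) is an
invertible object, in degree `-2` for all realisations; the members `P` of `Q` satisfy the hard
Lefschetz theorem for the realisation `R l₀`, that is, there are an integer `e` and morphisms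
`L : P ⟶ P ⊗ T ^ k` which induce isomorphisms `H^(e-k)(P) ≅ H^(e-k)(P ⊗ T ^ k)`, and they have
the same Betti numbers for all realisations. -/
structure LefschetzGenerated (Q : ObjectProperty C) (T : C) {Λ : Type*} {E : Λ → Type w}
    [∀ l, Field (E l)] (R : ∀ l, Realisation C (E l)) (l₀ : Λ) : Prop where
  generate : Q.IsClassicalTriangulatedGenerator
  invertible : ∃ T' : C, Nonempty (T ⊗ T' ≅ 𝟙_ C)
  degree (l : Λ) : (R l).Deg T (-2)
  lefschetz (P : C) : Q P → ∃ e : ℤ, ∀ k : ℕ, ∃ L : P ⟶ twist T P k,
    IsIso ((R l₀).H.map (L⟦e - k⟧'))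
  betti (P : C) : Q P → ∀ (l : Λ) (i : ℤ), Module.finrank (E l) ((R l).H.obj (P⟦i⟧)) =
    Module.finrank (E l₀) ((R l₀).H.obj (P⟦i⟧))

end

end Pool.Agent.Q57.MT
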