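import Pool.Agent.Q57.MT.VecZero
import Pool.Agent.Y116.MT.Mot

/-!
# The dimensions of the cohomology of an object of the heart for another realisation
-/

set_option autoImplicit false
set_option linter.unusedSectionVars false
set_option linter.unusedSimpArgs false
set_option backward.isDefEq.respectTransparency false
set_option backward.defeqAttrib.useBackward true

open CategoryTheory Limits MonoidalCategory Pretriangulated Triangulated
open Pool.Agent.Y112.KD (tp asym)
open Pool.Agent.Y116.MT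

namespace Pool.Agent.Q57.MT

universe v u w w'

open Functor.LaxMonoidal

section

variable {E : Type w} [Field E] {M : ℤ → Type w} [∀ i, AddCommGroup (M i)]
    [∀ i, Module E (M i)] [∀ i, Module.Finite E (M i)] {N : Type w} [AddCommGroup N] [Module E N]
    [Module.Finite E N]

lemma sum_finrank_le (f : ∀ i, M i →ₗ[E] N)
    (hb : Function.Injective (DirectSum.toModule E ℤ N f)) (s : Finset ℤ) :
    ∑ i ∈ s, Module.finrank E (M i) ≤ Module.finrank E N := by
  let L : (∀ i : s, M i) →ₗ[E] N := ∑ i : s, f i ∘ₗ LinearMap.proj i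
  have hL : Function.Injective L := by
    rw [← LinearMap.ker_eq_bot, LinearMap.ker_eq_bot']
    intro x hx
    have h1 : DirectSum.toModule E ℤ N f (∑ i : s, DirectSum.lof E ℤ M i (x i)) = 0 := by
      rw [map_sum]
      simp only [DirectSum.toModule_lof]
      rw [← hx]
      simp [L]
    have h2 : ∑ i : s, DirectSum.lof E ℤ M i (x i) = 0 := hb (by rw [h1, map_zero])
    funext j
    have h3 := congrArg (fun z => DirectSum.component E ℤ M j z) h2
    simp only [map_sum, map_zero] at h3
    rw [Finset.sum_eq_single j] at h3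
    · simpa using h3
    · intro i _ hij
      rw [DirectSum.component.of, dif_neg]
      exact fun h => hij (Subtype.ext h)
    · intro h
      exact absurd (Finset.mem_univ j) h
  have h1 := LinearMap.finrank_le_finrank_of_injective hL
  rw [Module.finrank_pi_fintype] at h1
  rwa [← Finset.sum_coe_sort s (fun i => Module.finrank E (M i))]

lemma growth {T r N : ℕ} (h : ∀ s : ℕ, T ^ s ≤ (2 * (N * s) + 1) * r ^ s) : T ≤ r := by
  by_contra hlt
  push Not at hlt
  have hr : 0 < r := by
    by_contra hr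
    have hr' : r = 0 := by omega
    have h1 := h 1
    subst hr'
    simp at h1
    omega
  have hr' : (0 : ℝ) < r := by exact_mod_cast hr
  have h1 : (1 : ℝ) < (T : ℝ) / r := by
    rw [one_lt_div hr']
    exact_mod_cast hlt
  have h2 := (tendsto_pow_const_div_const_pow_of_one_lt 1 h1).const_mul (2 * N : ℝ)
  have h3 := (tendsto_pow_const_div_const_pow_of_one_lt 0 h1)
  have h4 := h2.add h3
  have h5 : ∀ s : ℕ, (1 : ℝ) ≤ 2 * N * ((s : ℝ) ^ 1 / ((T : ℝ) / r) ^ s) +
      (s : ℝ) ^ 0 / ((T : ℝ) / r) ^ s := by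
    intro s
    have h6 : ((T : ℝ) / r) ^ s ≤ 2 * (N * s) + 1 := by
      rw [div_pow, div_le_iff₀ (by positivity)]
      exact_mod_cast h s
    have h7 : (0 : ℝ) < ((T : ℝ) / r) ^ s := by positivity
    have h8 : 2 * N * ((s : ℝ) ^ 1 / ((T : ℝ) / r) ^ s) + (s : ℝ) ^ 0 / ((T : ℝ) / r) ^ s =
        (2 * (N * s) + 1) / ((T : ℝ) / r) ^ s := by
      field_simp
    rw [h8, one_le_div h7]
    exact h6
  have h9 := ge_of_tendsto' h4 h5
  simp at h9
  linarith

end

section

variable {C : Type u} [Category.{v} C] [Preadditive C] [HasZeroObject C] [HasShift C ℤ]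
  [∀ n : ℤ, (shiftFunctor C n).Additive] [Pretriangulated C] [MonoidalCategory C]
  [SymmetricCategory C] [TensorTriangulated C] {E : Type w} [Field E] (R : Realisation C E)

/-- The dimension of the cohomology in degree `i`. -/
noncomputable def hd (X : C) (i : ℤ) : ℕ := Module.finrank E (R.H.obj (X⟦i⟧))

lemma finite_H (X : C) : Module.Finite E (R.H.obj X) := R.finite X

lemma hd_iso {X Y : C} (e : X ≅ Y) (i : ℤ) : hd R X i = hd R Y i :=
  LinearEquiv.finrank_eq (R.H.mapIso ((shiftFunctor C i).mapIso e)).toLinearEquiv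

lemma finrank_iso {A B : ModuleCat.{w} E} (e : A ≅ B) : Module.finrank E A = Module.finrank E B :=
  LinearEquiv.finrank_eq e.toLinearEquiv

lemma hd_shift (X : C) (a i j : ℤ) (h : a + i = j) : hd R (X⟦a⟧) i = hd R X j :=
  finrank_iso (R.H.mapIso ((shiftFunctorAdd' C a i j h).symm.app X))

lemma hd_zero_iff (X : C) (i : ℤ) : hd R X i = 0 ↔ IsZero (R.H.obj (X⟦i⟧)) := by
  have := finite_H R (X⟦i⟧)
  rw [hd, ModuleCat.isZero_iff_subsingleton]
  exact Module.finrank_zero_iff

/-- The Künneth inequality. -/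
lemma hd_tensor (X Y : C) (a : ℤ) (s : Finset ℤ) :
    ∑ i ∈ s, hd R X i * hd R Y (a - i) ≤ hd R (X ⊗ Y) a := by
  have h1 : hd R (X ⊗ Y) a = Module.finrank E (R.H.obj (X ⊗ Y⟦a⟧)) :=
    finrank_iso (R.H.mapIso (rShift X Y a).symm)
  have h2 := (R.kunneth X (Y⟦a⟧)).1
  have h0 : ∀ i : ℤ, Module.Finite E
      (R.H.obj (X⟦i⟧) ⊗ R.H.obj (Y⟦a⟧⟦-i⟧) : ModuleCat.{w} E) := fun i =>
    inferInstanceAs (Module.Finite E (TensorProduct E (R.H.obj (X⟦i⟧)) (R.H.obj (Y⟦a⟧⟦-i⟧))))
  have h3 := sum_finrank_le (E := E)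
    (M := fun i : ℤ => (R.H.obj (X⟦i⟧) ⊗ R.H.obj (Y⟦a⟧⟦-i⟧) : ModuleCat.{w} E))
    (fun i : ℤ => (μ R.H (X⟦i⟧) (Y⟦a⟧⟦-i⟧) ≫ R.H.map (shiftTensorIso X (Y⟦a⟧) i).hom).hom) h2 s
  rw [h1]
  refine le_trans (le_of_eq ?_) h3
  refine Finset.sum_congr rfl fun i _ => ?_
  have h4 : Module.finrank E (R.H.obj (X⟦i⟧) ⊗ R.H.obj (Y⟦a⟧⟦-i⟧) : ModuleCat.{w} E) =
      Module.finrank E (R.H.obj (X⟦i⟧)) * Module.finrank E (R.H.obj (Y⟦a⟧⟦-i⟧)) :=
    Module.finrank_tensorProduct
  rw [h4]
  congr 1
  exact (hd_shift R Y a (-i) (a - i) (by ring)).symm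

/-- The total dimension of the cohomology of the tensor powers. -/
lemma total_pow (X : C) (N : ℕ) (s : ℕ) :
    (∑ i ∈ Finset.Icc (-(N : ℤ)) N, hd R X i) ^ s ≤
      ∑ a ∈ Finset.Icc (-((N * s : ℕ) : ℤ)) ((N * s : ℕ) : ℤ), hd R (tp X s) a := by
  induction s with
  | zero =>
    have h1 : 0 < hd R (𝟙_ C) 0 := by
      rw [Nat.pos_iff_ne_zero, Ne, hd_zero_iff]
      exact fun h => not_isZero_H_unit R
        (h.of_iso (R.H.mapIso ((shiftFunctorZero C ℤ).symm.app _)))
    have h2 : 1 ≤ hd R (tp X 0) 0 := h1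
    simpa using h2
  | succ s ih =>
    rw [pow_succ]
    calc (∑ i ∈ Finset.Icc (-(N : ℤ)) N, hd R X i) ^ s * (∑ i ∈ Finset.Icc (-(N : ℤ)) N, hd R X i)
        ≤ (∑ a ∈ Finset.Icc (-((N * s : ℕ) : ℤ)) ((N * s : ℕ) : ℤ), hd R (tp X s) a) *
          (∑ i ∈ Finset.Icc (-(N : ℤ)) N, hd R X i) := Nat.mul_le_mul_right _ ih
      _ ≤ ∑ i ∈ Finset.Icc (-((N * s : ℕ) : ℤ)) ((N * s : ℕ) : ℤ), hd R (tp X s) i *
          ∑ a ∈ Finset.Icc (-((N * (s + 1) : ℕ) : ℤ)) ((N * (s + 1) : ℕ) : ℤ), hd R X (a - i) := by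
          rw [Finset.sum_mul]
          refine Finset.sum_le_sum fun i hi => Nat.mul_le_mul_left _ ?_
          rw [Finset.mem_Icc] at hi
          have h1 : ∑ j ∈ Finset.Icc (-(N : ℤ)) N, hd R X j =
              ∑ a ∈ Finset.Icc (-(N : ℤ) + i) (N + i), hd R X (a - i) := by
            refine Finset.sum_nbij' (fun j => j + i) (fun a => a - i) ?_ ?_ ?_ ?_ ?_
            · intro j hj
              rw [Finset.mem_Icc] at hj ⊢
              omega
            · intro j hj
              rw [Finset.mem_Icc] at hj ⊢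
              omega
            · intro j _
              ring
            · intro j _
              ring
            · intro j _
              rw [add_sub_cancel_right]
          rw [h1]
          refine Finset.sum_le_sum_of_subset ?_
          intro a ha
          rw [Finset.mem_Icc] at ha ⊢
          push_cast at hi ⊢
          constructor <;> linarith [hi.1, hi.2, ha.1, ha.2]
      _ = ∑ a ∈ Finset.Icc (-((N * (s + 1) : ℕ) : ℤ)) ((N * (s + 1) : ℕ) : ℤ),
          ∑ i ∈ Finset.Icc (-((N * s : ℕ) : ℤ)) ((N * s : ℕ) : ℤ),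
            hd R (tp X s) i * hd R X (a - i) := by
          rw [Finset.sum_comm]
          refine Finset.sum_congr rfl fun i _ => ?_
          rw [Finset.mul_sum]
      _ ≤ _ := Finset.sum_le_sum fun a _ => hd_tensor R (tp X s) X a _

end

section

variable {C : Type u} [Category.{v} C] [Preadditive C] [HasZeroObject C] [HasShift C ℤ]
  [∀ n : ℤ, (shiftFunctor C n).Additive] [Pretriangulated C] [MonoidalCategory C]
  [SymmetricCategory C] [TensorTriangulated C] [MonoidalPreadditive C] [RightRigidCategory C]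
  [Linear ℚ C] [MonoidalLinear ℚ C]
  {E : Type w} [Field E] [CharZero E] {t : TStructure C} {R : Realisation C E}
  (ht : TensorCompat t) (he : TExact t R) (hu : Hrt t (𝟙_ C))
  (hid : ∀ e : 𝟙_ C ⟶ 𝟙_ C, e ≫ e = e → e = 0 ∨ e = 𝟙 _)

include ht hu in
lemma tp_hrt {Z : C} (hZ : Hrt t Z) (n : ℕ) : Hrt t (tp Z n) := by
  induction n with
  | zero => exact hu
  | succ n ih => exact ht.hrt ih hZ

lemma kp_iso {Z : C} (h : ∀ n, R.Deg (tp Z n) 0) (n : ℕ) : IsIso (kp R.H Z n) := by
  induction n with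
  | zero =>
    have := R.unit
    simp only [kp]
    infer_instance
  | succ n ih =>
    have h1 := (h n).isIso_mu Z
    simp only [kp]
    infer_instance

lemma finrank_tp (V : ModuleCat.{w} E) (n : ℕ) :
    Module.finrank E (tp V n : ModuleCat.{w} E) = Module.finrank E V ^ n := by
  induction n with
  | zero => exact Module.finrank_self E
  | succ n ih =>
    have h4 : Module.finrank E (tp V (n + 1) : ModuleCat.{w} E) =
        Module.finrank E (tp V n : ModuleCat.{w} E) * Module.finrank E V :=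
      Module.finrank_tensorProduct
    rw [h4, ih, pow_succ]

include ht he hu in
lemma finrank_tp_heart {Z : C} (hZ : Hrt t Z) (n : ℕ) :
    Module.finrank E (R.H.obj (tp Z n)) = Module.finrank E (R.H.obj Z) ^ n := by
  have h1 := kp_iso (fun n => he.deg (tp_hrt ht hu hZ n)) n
  rw [← finrank_tp, finrank_iso (asIso (kp R.H Z n))]

include ht he hu hid in
/-- The antisymmetrizer vanishes for large `n` on an object of the heart. -/
theorem asym_heart [IsTriangulated C] {Z : C} (hZ : Hrt t Z) :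
    asym (-1) Z (Module.finrank E (R.H.obj Z) + 1) = 0 := by
  have h0 := fun n => tp_hrt ht hu hZ n
  apply faithful_heart ht he hu hid (h0 _) (h0 _)
  have h1 := kp_iso (fun n => he.deg (h0 n)) (Module.finrank E (R.H.obj Z) + 1)
  have h2 := finite_H R Z
  rw [← cancel_epi (kp R.H Z (Module.finrank E (R.H.obj Z) + 1)), ← asym_kp,
    asym_vec_zero (Nat.lt_succ_self _), zero_comp, comp_zero]

variable {E' : Type w'} [Field E'] [CharZero E'] (R' : Realisation C E')

include ht he hu hid in
/-- The other realisation of an object of the heart is even. -/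
theorem heart_odd [IsTriangulated C] {Z : C} (hZ : Hrt t Z) {a : ℤ} (ha : Odd a) :
    IsZero (R'.H.obj (Z⟦a⟧)) :=
  odd_zero R' (asym_heart ht he hu hid hZ) ha

include ht he hu hid in
lemma heart_bound [IsTriangulated C] {Z : C} (hZ : Hrt t Z) (a : ℤ) :
    hd R' Z a ≤ Module.finrank E (R.H.obj Z) := by
  rcases Int.even_or_odd a with ha | ha
  · have := even_bound R' (asym_heart ht he hu hid hZ) ha
    rw [hd]
    omega
  · rw [(hd_zero_iff R' Z a).mpr (heart_odd ht he hu hid R' hZ ha)]
    exact Nat.zero_le _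

include ht he hu hid in
/-- The total dimension of the other realisation of an object of the heart. -/
theorem heart_total [IsTriangulated C] {Z : C} (hZ : Hrt t Z) (N : ℕ) :
    ∑ i ∈ Finset.Icc (-(N : ℤ)) N, hd R' Z i ≤ Module.finrank E (R.H.obj Z) := by
  apply growth (N := N)
  intro s
  refine (total_pow R' Z N s).trans ?_
  rw [← finrank_tp_heart ht he hu hZ]
  refine (Finset.sum_le_card_nsmul _ _ _
    (fun a _ => heart_bound ht he hu hid R' (tp_hrt ht hu hZ s) a)).trans ?_
  rw [smul_eq_mul, Int.card_Icc]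
  refine Nat.mul_le_mul_right _ ?_
  omega

end

end Pool.Agent.Q57.MT
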