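import Pool.Agent.Q57.MT.Vec
import Pool.Agent.Y116.MT.Real

/-!
# Symmetrizers and realisations
-/

set_option autoImplicit false
set_option linter.unusedSectionVars false
set_option linter.unusedSimpArgs false
set_option backward.isDefEq.respectTransparency false
set_option backward.defeqAttrib.useBackward true

open CategoryTheory Limits MonoidalCategory Pretriangulated Triangulated
open Pool.Agent.Y112.KD (tp IsSwap sw asym swap_asym asym_main sw_nat sw_nat_left asym_nat
  tpm asym_succ asym_zero asym_one)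
open Pool.Agent.Y116.MT (TensorTriangulated Realisation rShift lShift shiftTensorIso kunnethMap)

namespace Pool.Agent.Q57.MT

universe v u w v' u'

open Functor.LaxMonoidal

section

variable {C : Type u} [Category.{v} C] [MonoidalCategory C] [SymmetricCategory C]
  {D : Type u'} [Category.{v'} D] [MonoidalCategory D] [SymmetricCategory D]
  (H : C ⥤ D) [H.LaxBraided] (X : C)

/-- The comparison map of tensor powers. -/
def kp : ∀ n : ℕ, tp (H.obj X) n ⟶ H.obj (tp X n)
  | 0 => ε H
  | n + 1 => (kp n ▷ H.obj X) ≫ μ H (tp X n) X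

lemma sw_lax (W Z : C) :
    sw (H.obj W) (H.obj Z) ≫ μ H W Z ▷ H.obj Z ≫ μ H (W ⊗ Z) Z =
      μ H W Z ▷ H.obj Z ≫ μ H (W ⊗ Z) Z ≫ H.map (sw W Z) :=
  Pool.Agent.Y116.MT.exch_lax H Z W Z

lemma sw_kp (n : ℕ) : sw (tp (H.obj X) n) (H.obj X) ≫ kp H X (n + 2) =
    kp H X (n + 2) ≫ H.map (sw (tp X n) X) := by
  have h1 : kp H X (n + 2) = (kp H X n ▷ H.obj X ▷ H.obj X) ≫
      (μ H (tp X n) X ▷ H.obj X) ≫ μ H (tp X n ⊗ X) X := by
    simp [kp]
  rw [h1, ← reassoc_of% (sw_nat_left (X := H.obj X) (kp H X n)), sw_lax]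
  simp only [Category.assoc]

lemma whisker_kp (n : ℕ) (f : tp X n ⟶ tp X n) (g : tp (H.obj X) n ⟶ tp (H.obj X) n)
    (h : g ≫ kp H X n = kp H X n ≫ H.map f) :
    (g ▷ H.obj X) ≫ kp H X (n + 1) = kp H X (n + 1) ≫ H.map (f ▷ X) := by
  rw [kp, ← comp_whiskerRight_assoc, h, comp_whiskerRight_assoc, μ_natural_left, Category.assoc]

variable [Preadditive C] [Linear ℚ C] [Preadditive D] [Linear ℚ D] [H.Additive]

lemma asym_kp (η : ℚ) (n : ℕ) :
    asym η (H.obj X) n ≫ kp H X n = kp H X n ≫ H.map (asym η X n) := by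
  induction n with
  | zero => simp [asym_zero]
  | succ n ih =>
    rcases n with - | n
    · simp [asym_one]
    · have h1 := whisker_kp H X (n + 1) _ _ ih
      have h2 : (asym η (H.obj X) (n + 1) ▷ H.obj X ≫ sw (tp (H.obj X) n) (H.obj X) ≫
          asym η (H.obj X) (n + 1) ▷ H.obj X) ≫ kp H X (n + 2) = kp H X (n + 2) ≫
          H.map (asym η X (n + 1) ▷ X ≫ sw (tp X n) X ≫ asym η X (n + 1) ▷ X) := by
        simp only [Category.assoc, Functor.map_comp]
        rw [h1, reassoc_of% (sw_kp H X n), reassoc_of% h1]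
      rw [asym_succ, asym_succ, Functor.map_smul, Functor.map_add, Functor.map_smul,
        Linear.smul_comp, Preadditive.add_comp, Linear.smul_comp, h1, h2, Linear.comp_smul,
        Preadditive.comp_add, Linear.comp_smul]

end

section

variable {C : Type u} [Category.{v} C] [Preadditive C] [HasZeroObject C] [HasShift C ℤ]
  [∀ n : ℤ, (shiftFunctor C n).Additive] [Pretriangulated C] [MonoidalCategory C]
  [SymmetricCategory C] [TensorTriangulated C] {E : Type w} [Field E] (R : Realisation C E)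

lemma mono_mu_iff {X X' Y Y' : C} (e : X ≅ X') (f : Y ≅ Y') (h : Mono (μ R.H X Y)) :
    Mono (μ R.H X' Y') := by
  have h1 : μ R.H X' Y' = (R.H.map e.inv ⊗ₘ R.H.map f.inv) ≫ μ R.H X Y ≫
      R.H.map (e.hom ⊗ₘ f.hom) := by
    rw [← μ_natural, tensorHom_comp_tensorHom_assoc, ← Functor.map_comp, ← Functor.map_comp,
      e.inv_hom_id, f.inv_hom_id, CategoryTheory.Functor.map_id, CategoryTheory.Functor.map_id,
      id_tensorHom_id, Category.id_comp]
  rw [h1]
  infer_instance

lemma mono_mu_shift (X Y : C) (i : ℤ) : Mono (μ R.H (X⟦i⟧) (Y⟦-i⟧)) := by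
  have h1 : Function.Injective ((μ R.H (X⟦i⟧) (Y⟦-i⟧) ≫
      R.H.map (shiftTensorIso X Y i).hom).hom) := by
    have h2 : (μ R.H (X⟦i⟧) (Y⟦-i⟧) ≫ R.H.map (shiftTensorIso X Y i).hom).hom =
        (kunnethMap R.H X Y) ∘ₗ (DirectSum.lof E ℤ
          (fun i : ℤ => (R.H.obj (X⟦i⟧) ⊗ R.H.obj (Y⟦-i⟧) : ModuleCat.{w} E)) i) := by
      ext x
      simp [kunnethMap]
    rw [h2]
    exact (R.kunneth X Y).1.comp (DirectSum.of_injective i)
  have h3 : Mono (μ R.H (X⟦i⟧) (Y⟦-i⟧) ≫ R.H.map (shiftTensorIso X Y i).hom) :=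
    (ModuleCat.mono_iff_injective _).2 h1
  exact mono_of_mono _ (R.H.map (shiftTensorIso X Y i).hom)

lemma mono_mu (X Y : C) : Mono (μ R.H X Y) :=
  mono_mu_iff R ((shiftFunctorZero C ℤ).app X) ((shiftFunctorZero' C (-0 : ℤ) (by simp)).app Y)
    (mono_mu_shift R X Y 0)

lemma mono_whisker {A B : ModuleCat.{w} E} (f : A ⟶ B) [Mono f] (V : ModuleCat.{w} E) :
    Mono (f ▷ V) := by
  rw [ModuleCat.mono_iff_injective]
  exact Module.Flat.rTensor_preserves_injective_linearMap (M := V) f.hom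
    ((ModuleCat.mono_iff_injective f).1 inferInstance)

lemma mono_kp (X : C) (n : ℕ) : Mono (kp R.H X n) := by
  induction n with
  | zero =>
    have := R.unit
    simp only [kp]
    infer_instance
  | succ n ih =>
    have h1 := mono_whisker (kp R.H X n) (R.H.obj X)
    have h2 := mono_mu R (tp X n) X
    simp only [kp]
    exact mono_comp _ _

variable [Linear ℚ C] [CharZero E]

lemma asym_real {η : ℚ} {X : C} {n : ℕ} (h : asym η X n = 0) : asym η (R.H.obj X) n = 0 := by
  have h1 := mono_kp R X n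
  rw [← cancel_mono (kp R.H X n), asym_kp, h, Functor.map_zero, comp_zero, zero_comp]

variable [MonoidalPreadditive C] [MonoidalLinear ℚ C]

/-- The odd cohomology of an object killed by an exterior power vanishes. -/
theorem odd_zero {Z : C} {n : ℕ} (h : asym (-1) Z n = 0) {a : ℤ} (ha : Odd a) :
    IsZero (R.H.obj (Z⟦a⟧)) := by
  have h1 := asym_real R (asym_shift h a)
  have h2 : (-(-1) ^ a.natAbs : ℚ) = 1 := by
    rw [(Int.natAbs_odd.mpr ha).neg_one_pow, neg_neg]
  rw [h2] at h1
  exact isZero_of_asym h1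

/-- The even cohomology of an object killed by an exterior power is bounded. -/
theorem even_bound {Z : C} {n : ℕ} (h : asym (-1) Z n = 0) {a : ℤ} (ha : Even a) :
    Module.finrank E (R.H.obj (Z⟦a⟧)) < n := by
  have h1 := asym_real R (asym_shift h a)
  have h2 : (-(-1) ^ a.natAbs : ℚ) = -1 := by
    rw [(Int.natAbs_even.mpr ha).neg_one_pow]
  rw [h2] at h1
  exact finrank_lt_of_asym h1

end

end Pool.Agent.Q57.MT
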