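import Pool.Agent.Y116.MT.Hom

/-!
# Objects with truncations compatible with a homological functor
-/

set_option autoImplicit false
set_option linter.unusedSectionVars false
set_option linter.unusedSimpArgs false
set_option backward.isDefEq.respectTransparency false
set_option backward.defeqAttrib.useBackward true

open CategoryTheory Limits Pretriangulated Triangulated
open CategoryTheory.ObjectProperty (extensionProduct extensionProduct_assoc)
open Pool.Agent.Y116.MT (hz1 hz2 hz3 rotD comp12)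

namespace Pool.Agent.Q57.MT

universe v u

section

variable {C : Type u} [Category.{v} C] [Preadditive C] [HasZeroObject C] [HasShift C ℤ]
  [∀ n : ℤ, (shiftFunctor C n).Additive] [Pretriangulated C]
  {A : Type*} [Category A] [Abelian A] (H : C ⥤ A) [H.IsHomological] (t : TStructure C)

section

variable {t}

lemma isLE2 {X Y Z : C} {f : X ⟶ Y} {g : Y ⟶ Z} {h : Z ⟶ X⟦(1 : ℤ)⟧}
    (hT : Triangle.mk f g h ∈ distTriang C) {n : ℤ} (hX : t.IsLE X n) (hZ : t.IsLE Z n) :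
    t.IsLE Y n := t.isLE₂ _ hT n hX hZ

lemma isGE2 {X Y Z : C} {f : X ⟶ Y} {g : Y ⟶ Z} {h : Z ⟶ X⟦(1 : ℤ)⟧}
    (hT : Triangle.mk f g h ∈ distTriang C) {n : ℤ} (hX : t.IsGE X n) (hZ : t.IsGE Z n) :
    t.IsGE Y n := t.isGE₂ _ hT n hX hZ

lemma isLE3 {X Y Z : C} {f : X ⟶ Y} {g : Y ⟶ Z} {h : Z ⟶ X⟦(1 : ℤ)⟧}
    (hT : Triangle.mk f g h ∈ distTriang C) {n : ℤ} (hX : t.IsLE X (n + 1)) (hY : t.IsLE Y n) :
    t.IsLE Z n :=
  isLE2 (rotD hT) hY (t.isLE_shift X (n + 1) 1 n)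

lemma isGE1 {X Y Z : C} {f : X ⟶ Y} {g : Y ⟶ Z} {h : Z ⟶ X⟦(1 : ℤ)⟧}
    (hT : Triangle.mk f g h ∈ distTriang C) {n : ℤ} (hY : t.IsGE Y n) (hZ : t.IsGE Z (n - 1)) :
    t.IsGE X n := by
  have h1 : t.IsGE (X⟦(1 : ℤ)⟧) (n - 1) :=
    isGE2 (rotD (rotD hT)) hZ (t.isGE_shift Y n 1 (n - 1))
  exact t.isGE_of_shift X n 1 (n - 1)

end

/-- Objects in degrees `≤ n` for the t-structure and for `H`. -/
def NLE (n : ℤ) : ObjectProperty C := fun X =>
  t.IsLE X n ∧ ∀ i : ℤ, n < i → IsZero (H.obj (X⟦i⟧))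

/-- Objects in degrees `≥ n` for the t-structure and for `H`. -/
def NGE (n : ℤ) : ObjectProperty C := fun X =>
  t.IsGE X n ∧ ∀ i : ℤ, i < n → IsZero (H.obj (X⟦i⟧))

/-- Objects in degree `n` for the t-structure and for `H`. -/
def NP (n : ℤ) : ObjectProperty C := fun X => NLE H t n X ∧ NGE H t n X

variable {H t}

lemma NLE.mono {n m : ℤ} (h : n ≤ m) : NLE H t n ≤ NLE H t m := fun X hX =>
  ⟨@TStructure.isLE_of_le _ _ _ _ _ _ _ t X n m h hX.1, fun i hi => hX.2 i (by omega)⟩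

lemma NGE.mono {n m : ℤ} (h : n ≤ m) : NGE H t m ≤ NGE H t n := fun X hX =>
  ⟨@TStructure.isGE_of_ge _ _ _ _ _ _ _ t X n m h hX.1, fun i hi => hX.2 i (by omega)⟩

lemma ep_mono {P P' Q Q' : ObjectProperty C} (h : P ≤ P') (h' : Q ≤ Q') :
    extensionProduct P Q ≤ extensionProduct P' Q' := by
  rintro X ⟨Y, Z, f, g, k, hT, hY, hZ⟩
  exact ⟨Y, Z, f, g, k, hT, h _ hY, h' _ hZ⟩

lemma NLE.ext (n : ℤ) : extensionProduct (NLE H t n) (NLE H t n) ≤ NLE H t n := by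
  rintro X ⟨Y, Z, f, g, k, hT, hY, hZ⟩
  exact ⟨isLE2 hT hY.1 hZ.1, fun i hi => hz2 H hT i (hY.2 i hi) (hZ.2 i hi)⟩

lemma NGE.ext (n : ℤ) : extensionProduct (NGE H t n) (NGE H t n) ≤ NGE H t n := by
  rintro X ⟨Y, Z, f, g, k, hT, hY, hZ⟩
  exact ⟨isGE2 hT hY.1 hZ.1, fun i hi => hz2 H hT i (hY.2 i hi) (hZ.2 i hi)⟩

/-- Split extensions can be exchanged. -/
lemma ep_split {P Q : ObjectProperty C}
    (h : ∀ (Y Z : C) (k : Z ⟶ Y⟦(1 : ℤ)⟧), P Y → Q Z → k = 0) :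
    extensionProduct P Q ≤ extensionProduct Q P := by
  rintro X ⟨Y, Z, f, g, k, hT, hY, hZ⟩
  have h0 := h Y Z k hY hZ
  obtain ⟨e, -⟩ := exists_iso_binaryBiproduct_of_distTriang _ hT h0
  have h1 := binaryBiproductTriangle_distinguished Z Y
  have e' : X ≅ Z ⊞ Y := e ≪≫ biprod.braiding _ _
  refine ⟨Z, Y, biprod.inl ≫ e'.inv, e'.hom ≫ biprod.snd, 0, ?_, hZ, hY⟩
  refine isomorphic_distinguished _ h1 _ (Triangle.isoMk _ _ (Iso.refl _) e' (Iso.refl _) ?_ ?_ ?_)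
  · simp [binaryBiproductTriangle]
  · simp [binaryBiproductTriangle]
  · simp [binaryBiproductTriangle]

lemma shift_ge {X : C} {n : ℤ} (h : t.IsGE X (n + 1)) : t.IsGE (X⟦(1 : ℤ)⟧) n :=
  t.isGE_shift X (n + 1) 1 n

lemma shift_le {X : C} {n : ℤ} (h : t.IsLE X (n + 1)) : t.IsLE (X⟦(1 : ℤ)⟧) n :=
  t.isLE_shift X (n + 1) 1 n

lemma ep_ge_le (n m : ℤ) (h : n + 2 ≤ m) :
    extensionProduct (NGE H t m) (NLE H t n) ≤ extensionProduct (NLE H t n) (NGE H t m) := by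
  apply ep_split
  intro Y Z k hY hZ
  have h1 : t.IsGE Y (n + 1 + 1) :=
    @TStructure.isGE_of_ge _ _ _ _ _ _ _ t Y (n + 1 + 1) m (by omega) hY.1
  exact t.zero_of_isLE_of_isGE k n (n + 1) (by omega) hZ.1 (shift_ge h1)

variable [IsTriangulated C]

/-- The homological functor is even on the heart. -/
def Even' (H : C ⥤ A) (t : TStructure C) : Prop :=
  ∀ (Z : C) (n : ℤ), t.IsLE Z n → t.IsGE Z n → ∀ i : ℤ, Odd (i - n) → IsZero (H.obj (Z⟦i⟧))

/-- The main step. -/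
lemma ep_middle (hev : Even' H t) (n : ℤ) :
    extensionProduct (NP H t (n + 1)) (NP H t n) ≤
      extensionProduct (NP H t n) (NP H t (n + 1)) := by
  rintro V ⟨L, K, l, k, d, hT, hL, hK⟩
  obtain ⟨V', V'', hV', hV'', a, b, c, hV⟩ := t.exists_triangle V n (n + 1) rfl
  have hV'1 : t.IsLE V' n := ⟨hV'⟩
  have hV''1 : t.IsGE V'' (n + 1) := ⟨hV''⟩
  have hLge : t.IsGE L (n + 1) := hL.2.1
  have hLle : t.IsLE L (n + 1) := hL.1.1
  have hKge : t.IsGE K n := hK.2.1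
  have hKle : t.IsLE K n := hK.1.1
  have hVge : t.IsGE V n := isGE2 hT (t.isGE_of_ge L n (n + 1) (by omega)) hKge
  have hVle : t.IsLE V (n + 1) := isLE2 hT hLle (t.isLE_of_le K n (n + 1) (by omega))
  have hV'ge : t.IsGE V' n := isGE1 hV hVge (t.isGE_of_ge V'' (n - 1) (n + 1) (by omega))
  have hV''le : t.IsLE V'' (n + 1) :=
    isLE3 hV (t.isLE_of_le V' n (n + 1 + 1) (by omega)) hVle
  obtain ⟨J, p, q, hJ⟩ := distinguished_cocone_triangle (a ≫ k)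
  have O := someOctahedron rfl hV (rotD hT) hJ
  have hL1le : t.IsLE (L⟦(1 : ℤ)⟧) n := shift_le hLle
  have hL1ge : t.IsGE (L⟦(1 : ℤ)⟧) n := shift_ge hLge
  have hJge : t.IsGE J n := isGE2 O.mem (t.isGE_of_ge V'' n (n + 1) (by omega)) hL1ge
  have hJle : t.IsLE J n := isLE3 hJ (t.isLE_of_le V' n (n + 1) (by omega)) hKle
  have odd_or : ∀ i : ℤ, Odd (i - n) ∨ Even (i - n) := fun i => (Int.even_or_odd _).symm
  have hV'z : ∀ i, i ≠ n → IsZero (H.obj (V'⟦i⟧)) := by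
    intro i hi
    rcases odd_or i with h | h
    · exact hev V' n hV'1 hV'ge i h
    · have h1 : IsZero (H.obj (J⟦i - 1⟧)) := hev J n hJle hJge (i - 1) (by
        rw [show i - 1 - n = (i - n) - 1 by ring]
        exact h.sub_odd odd_one)
      have h2 : IsZero (H.obj (K⟦i⟧)) := by
        rcases lt_or_gt_of_ne hi with h3 | h3
        · exact hK.2.2 i h3
        · exact hK.1.2 i h3
      exact hz1 H hJ i h2 h1
  have hV''z : ∀ i, i ≠ n + 1 → IsZero (H.obj (V''⟦i⟧)) := by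
    intro i hi
    rcases odd_or i with h | h
    · have h1 : IsZero (H.obj (J⟦i⟧)) := hev J n hJle hJge i h
      have h2 : IsZero (H.obj (L⟦i⟧)) := by
        rcases lt_or_gt_of_ne hi with h3 | h3
        · exact hL.2.2 i h3
        · exact hL.1.2 i h3
      refine hz1 H O.mem i h1 ?_
      exact h2.of_iso (H.mapIso ((shiftFunctorAdd' C 1 (i - 1) i (by omega)).symm.app L))
    · exact hev V'' (n + 1) hV''le hV''1 i (by
        rw [show i - (n + 1) = (i - n) - 1 by ring]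
        exact h.sub_odd odd_one)
  exact ⟨V', V'', a, b, c, hV,
    ⟨⟨hV'1, fun i hi => hV'z i (by omega)⟩, ⟨hV'ge, fun i hi => hV'z i (by omega)⟩⟩,
    ⟨⟨hV''le, fun i hi => hV''z i (by omega)⟩, ⟨hV''1, fun i hi => hV''z i (by omega)⟩⟩⟩

variable (H t) in
/-- Objects whose truncations are compatible with `H`. -/
def Nice : ObjectProperty C := fun X => ∀ n : ℤ, extensionProduct (NLE H t n) (NGE H t (n + 1)) X

/-- Comparison of two truncations. -/
lemma refine_trunc {X A₁ B₁ A₂ B₂ : C} {n : ℤ} {f₁ : A₁ ⟶ X} {g₁ : X ⟶ B₁}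
    {h₁ : B₁ ⟶ A₁⟦(1 : ℤ)⟧} (hT₁ : Triangle.mk f₁ g₁ h₁ ∈ distTriang C) {f₂ : A₂ ⟶ X}
    {g₂ : X ⟶ B₂} {h₂ : B₂ ⟶ A₂⟦(1 : ℤ)⟧} (hT₂ : Triangle.mk f₂ g₂ h₂ ∈ distTriang C)
    (hA₁ : NLE H t (n - 1) A₁) (hB₁ : NGE H t n B₁) (hA₂ : NLE H t n A₂)
    (hB₂ : NGE H t (n + 1) B₂) :
    ∃ (P : C) (f : P ⟶ B₁) (g : B₁ ⟶ B₂) (h : B₂ ⟶ P⟦(1 : ℤ)⟧),
      Triangle.mk f g h ∈ distTriang C ∧ NP H t n P := by
  have hz : f₁ ≫ g₂ = 0 :=
    t.zero_of_isLE_of_isGE _ (n - 1) (n + 1) (by omega) hA₁.1 hB₂.1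
  obtain ⟨g, hg⟩ := Pool.Agent.Y116.MT.ye2 hT₁ g₂ hz
  obtain ⟨P, f, h, hP⟩ := distinguished_cocone_triangle₁ g
  have O := someOctahedron hg.symm (rotD hT₁) (rotD hP) (rotD hT₂)
  have e1 : t.IsLE (A₁⟦(1 : ℤ)⟧) (n - 1 + 1) := by
    have h3 := @TStructure.isLE_shift _ _ _ _ _ _ _ t A₁ (n - 1) 1 (n - 1 - 1) (by omega) hA₁.1
    exact @TStructure.isLE_of_le _ _ _ _ _ _ _ t _ (n - 1 - 1) (n - 1 + 1) (by omega) h3
  have e2 : t.IsLE (A₂⟦(1 : ℤ)⟧) (n - 1) :=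
    @TStructure.isLE_shift _ _ _ _ _ _ _ t A₂ n 1 (n - 1) (by omega) hA₂.1
  have e3 : t.IsLE (P⟦(1 : ℤ)⟧) (n - 1) := isLE3 O.mem e1 e2
  have e4 : t.IsLE P n := t.isLE_of_shift P n 1 (n - 1)
  have e5 : t.IsGE B₂ (n - 1) :=
    @TStructure.isGE_of_ge _ _ _ _ _ _ _ t B₂ (n - 1) (n + 1) (by omega) hB₂.1
  have e6 : t.IsGE P n := isGE1 hP hB₁.1 e5
  refine ⟨P, f, g, h, hP, ⟨e4, fun i hi => ?_⟩, ⟨e6, fun i hi => ?_⟩⟩
  · have h1 : IsZero (H.obj (A₂⟦(1 : ℤ)⟧⟦i - 1⟧)) := (hA₂.2 i hi).of_iso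
      (H.mapIso ((shiftFunctorAdd' C 1 (i - 1) i (by omega)).symm.app A₂))
    have h2 : IsZero (H.obj (A₁⟦(1 : ℤ)⟧⟦i - 1 + 1⟧)) := (hA₁.2 (i + 1) (by omega)).of_iso
      (H.mapIso ((shiftFunctorAdd' C 1 (i - 1 + 1) (i + 1) (by omega)).symm.app A₁))
    exact (hz3 H O.mem (i - 1) h1 h2).of_iso
      (H.mapIso ((shiftFunctorAdd' C 1 (i - 1) i (by omega)).app P))
  · exact hz1 H hP i (hB₁.2 i hi) (hB₂.2 (i - 1) (by omega))

/-- Nice objects have refined filtrations. -/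
lemma Nice.four {X : C} (hX : Nice H t X) (n : ℤ) :
    extensionProduct (NLE H t (n - 1)) (extensionProduct (NP H t n)
      (extensionProduct (NP H t (n + 1)) (NGE H t (n + 2)))) X := by
  obtain ⟨A₁, B₁, f₁, g₁, h₁, hT₁, hA₁, hB₁⟩ := hX (n - 1)
  obtain ⟨A₂, B₂, f₂, g₂, h₂, hT₂, hA₂, hB₂⟩ := hX n
  obtain ⟨A₃, B₃, f₃, g₃, h₃, hT₃, hA₃, hB₃⟩ := hX (n + 1)
  rw [sub_add_cancel] at hB₁
  have hB₃' : NGE H t (n + 2) B₃ := by
    rwa [show n + 1 + 1 = n + 2 by ring] at hB₃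
  have hA₂' : NLE H t (n + 1 - 1) A₂ := by
    rwa [add_sub_cancel_right]
  obtain ⟨P, f, g, h, hT, hP⟩ := refine_trunc hT₁ hT₂ hA₁ hB₁ hA₂ hB₂
  obtain ⟨P', f', g', h', hT', hP'⟩ := refine_trunc hT₂ hT₃ hA₂' hB₂ hA₃ hB₃
  exact ⟨A₁, B₁, f₁, g₁, h₁, hT₁, hA₁, P, B₂, f, g, h, hT, hP, P', B₃, f', g', h', hT', hP', hB₃'⟩

lemma np_le (n : ℤ) : NP H t n ≤ NLE H t n := fun _ h => h.1

lemma np_ge (n : ℤ) : NP H t n ≤ NGE H t n := fun _ h => h.2

lemma swap_head {U V U' V' W : ObjectProperty C}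
    (h : extensionProduct U V ≤ extensionProduct V' U') :
    extensionProduct U (extensionProduct V W) ≤ extensionProduct V' (extensionProduct U' W) := by
  rw [← extensionProduct_assoc, ← extensionProduct_assoc]
  exact ep_mono h le_rfl

/-- Nice objects are stable under extensions. -/
theorem Nice.ext (hev : Even' H t) {X Y Z : C} {f : X ⟶ Y} {g : Y ⟶ Z} {h : Z ⟶ X⟦(1 : ℤ)⟧}
    (hT : Triangle.mk f g h ∈ distTriang C) (hX : Nice H t X) (hZ : Nice H t Z) : Nice H t Y := by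
  intro n
  have h0 : extensionProduct (extensionProduct (NLE H t (n - 1)) (extensionProduct (NP H t n)
      (extensionProduct (NP H t (n + 1)) (NGE H t (n + 2)))))
      (extensionProduct (NLE H t (n - 1)) (extensionProduct (NP H t n)
      (extensionProduct (NP H t (n + 1)) (NGE H t (n + 2))))) Y :=
    ⟨X, Z, f, g, h, hT, hX.four n, hZ.four n⟩
  revert h0
  suffices hs : extensionProduct (extensionProduct (NLE H t (n - 1)) (extensionProduct (NP H t n)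
      (extensionProduct (NP H t (n + 1)) (NGE H t (n + 2)))))
      (extensionProduct (NLE H t (n - 1)) (extensionProduct (NP H t n)
      (extensionProduct (NP H t (n + 1)) (NGE H t (n + 2))))) ≤
      extensionProduct (NLE H t n) (NGE H t (n + 1)) from fun h0 => hs _ h0
  have s1 : extensionProduct (NGE H t (n + 2)) (NLE H t (n - 1)) ≤
      extensionProduct (NLE H t (n - 1)) (NGE H t (n + 2)) := ep_ge_le _ _ (by omega)
  have s2 : extensionProduct (NP H t (n + 1)) (NLE H t (n - 1)) ≤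
      extensionProduct (NLE H t (n - 1)) (NP H t (n + 1)) := by
    apply ep_split
    intro Y Z k hY hZ
    exact t.zero_of_isLE_of_isGE k (n - 1) n (by omega) hZ.1 (shift_ge hY.2.1)
  have s3 : extensionProduct (NGE H t (n + 2)) (NP H t n) ≤
      extensionProduct (NP H t n) (NGE H t (n + 2)) := by
    apply ep_split
    intro Y Z k hY hZ
    have h1 : t.IsGE Y (n + 1 + 1) := by
      have := hY.1
      rwa [show n + 2 = n + 1 + 1 by ring] at this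
    exact t.zero_of_isLE_of_isGE k n (n + 1) (by omega) hZ.1.1 (shift_ge h1)
  have s4 := ep_middle hev n
  simp only [extensionProduct_assoc]
  -- move the pieces
  refine (ep_mono le_rfl (ep_mono le_rfl (ep_mono le_rfl (swap_head s1)))).trans ?_
  refine (ep_mono le_rfl (ep_mono le_rfl (swap_head s2))).trans ?_
  refine (ep_mono le_rfl (ep_mono le_rfl (ep_mono le_rfl (ep_mono le_rfl
    (swap_head s3))))).trans ?_
  refine (ep_mono le_rfl (ep_mono le_rfl (ep_mono le_rfl (swap_head s4)))).trans ?_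
  -- collect the pieces
  have le1 : NLE H t (n - 1) ≤ NLE H t n := NLE.mono (by omega)
  have ge1 : NGE H t (n + 2) ≤ NGE H t (n + 1) := NGE.mono (by omega)
  have c1 : extensionProduct (NP H t (n + 1)) (extensionProduct (NGE H t (n + 2))
      (extensionProduct (NP H t (n + 1)) (NGE H t (n + 2)))) ≤ NGE H t (n + 1) := by
    refine (ep_mono (np_ge _) (ep_mono ge1 (ep_mono (np_ge _) ge1))).trans ?_
    refine (ep_mono le_rfl (ep_mono le_rfl (NGE.ext _))).trans ?_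
    exact (ep_mono le_rfl (NGE.ext _)).trans (NGE.ext _)
  refine (ep_mono le_rfl (ep_mono le_rfl (ep_mono le_rfl (ep_mono le_rfl c1)))).trans ?_
  refine (ep_mono le1 (ep_mono (np_le _) (ep_mono le1 (ep_mono (np_le _) le_rfl)))).trans ?_
  rw [← extensionProduct_assoc, ← extensionProduct_assoc, ← extensionProduct_assoc]
  refine ep_mono ?_ le_rfl
  refine (ep_mono (ep_mono (NLE.ext _) le_rfl) le_rfl).trans ?_
  exact (ep_mono (NLE.ext _) le_rfl).trans (NLE.ext _)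

end

end Pool.Agent.Q57.MT
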