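import Pool.Agent.Q57.MT.Dim

/-!
# Dimensions and truncations
-/

set_option autoImplicit false
set_option linter.unusedSectionVars false
set_option linter.unusedSimpArgs false
set_option backward.isDefEq.respectTransparency false
set_option backward.defeqAttrib.useBackward true

open CategoryTheory Limits MonoidalCategory Pretriangulated Triangulated
open Pool.Agent.Y112.KD (tp asym)
open Pool.Agent.Y116.MT

namespace Pool.Agent.Q57.MT

universe v u w w'

section

variable {C : Type u} [Category.{v} C] [Preadditive C] [HasZeroObject C] [HasShift C ℤ]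
  [∀ n : ℤ, (shiftFunctor C n).Additive] [Pretriangulated C] [MonoidalCategory C]
  [SymmetricCategory C] [TensorTriangulated C] {E : Type w} [Field E] (R : Realisation C E)

/-- Subadditivity of the dimension. -/
lemma hd_le {X Y Z : C} {f : X ⟶ Y} {g : Y ⟶ Z} {h : Z ⟶ X⟦(1 : ℤ)⟧}
    (hT : Triangle.mk f g h ∈ distTriang C) (n : ℤ) :
    hd R Y n ≤ hd R X n + hd R Z n := by
  have h0 : Function.Exact (R.H.map (f⟦n⟧')).hom (R.H.map (g⟦n⟧')).hom := by
    let _ := Functor.ShiftSequence.tautological R.H ℤ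
    have h1 := R.H.homologySequence_exact₂ _ hT n
    exact (ShortComplex.ShortExact.moduleCat_exact_iff_function_exact _).1 h1
  have hX := finite_H R (X⟦n⟧)
  have hY := finite_H R (Y⟦n⟧)
  have hZ := finite_H R (Z⟦n⟧)
  have h1 := LinearMap.finrank_range_add_finrank_ker (R.H.map (g⟦n⟧')).hom
  have h2 : LinearMap.ker (R.H.map (g⟦n⟧')).hom = LinearMap.range (R.H.map (f⟦n⟧')).hom :=
    (LinearMap.exact_iff).1 h0
  rw [h2] at h1
  have h3 := LinearMap.finrank_range_le (R.H.map (f⟦n⟧')).hom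
  have h4 := Submodule.finrank_le (LinearMap.range (R.H.map (g⟦n⟧')).hom)
  simp only [hd]
  omega

end

section

variable {C : Type u} [Category.{v} C] [Preadditive C] [HasZeroObject C] [HasShift C ℤ]
  [∀ n : ℤ, (shiftFunctor C n).Additive] [Pretriangulated C] [IsTriangulated C]
  [MonoidalCategory C] [SymmetricCategory C] [TensorTriangulated C] [MonoidalPreadditive C]
  [RightRigidCategory C] {E : Type w} [Field E]
  (R : Realisation C E) (t : TStructure C)

/-- The cohomology object in degree `j` for the t-structure, placed in degree `j`. -/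
noncomputable abbrev coh (j : ℤ) (X : C) : C := (t.truncGELT j (j + 1)).obj X

lemma coh_ge (j : ℤ) (X : C) : t.IsGE (coh t j X) j := inferInstance

lemma coh_le (j : ℤ) (X : C) : t.IsLE (coh t j X) j := by
  have : t.IsLE (coh t j X) (j + 1 - 1) := inferInstance
  rwa [add_sub_cancel_right] at this

lemma hd_of_isZero {X : C} (h : IsZero X) (i : ℤ) : hd R X i = 0 := by
  rw [hd_zero_iff]
  exact R.H.map_isZero ((shiftFunctor C i).map_isZero h)

lemma hd_truncLT (X : C) (N : ℤ) (hX : t.IsGE X N) (i : ℤ) (n : ℕ) :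
    hd R ((t.truncLT (N + n)).obj X) i ≤ ∑ j ∈ Finset.Ico N (N + n), hd R (coh t j X) i := by
  induction n with
  | zero =>
    rw [hd_of_isZero R]
    · exact Nat.zero_le _
    · have h1 := t.isZero_truncLT_obj_of_isGE N X
      have h2 : N + ((0 : ℕ) : ℤ) = N := by simp
      rwa [h2]
  | succ n ih =>
    have h1 := hd_le R (t.triangleLTLTGELT_distinguished (N + n) (N + n + 1) (by omega) X) i
    have h2 : N + ((n + 1 : ℕ) : ℤ) = N + n + 1 := by push_cast; ring
    have h3 : Finset.Ico N (N + n + 1) = insert (N + (n : ℤ)) (Finset.Ico N (N + n)) := by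
      ext x
      simp only [Finset.mem_Ico, Finset.mem_insert]
      omega
    rw [h2, h3, Finset.sum_insert (by simp)]
    change hd R ((t.truncLT (N + n + 1)).obj X) i ≤ hd R ((t.truncLT (N + n)).obj X) i +
      hd R (coh t (N + n) X) i at h1
    omega

/-- The dimension is bounded by the sum of the dimensions of the cohomology objects. -/
lemma hd_sum (X : C) (N : ℕ) (h1 : t.IsLE X N) (h2 : t.IsGE X (-N)) (i : ℤ) :
    hd R X i ≤ ∑ j ∈ Finset.Icc (-(N : ℤ)) N, hd R (coh t j X) i := by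
  have h3 := hd_truncLT R t X (-N) h2 i (2 * N + 1)
  have h4 : -(N : ℤ) + ((2 * N + 1 : ℕ) : ℤ) = N + 1 := by push_cast; ring
  have h5 : Finset.Ico (-(N : ℤ)) (N + 1) = Finset.Icc (-(N : ℤ)) N := by
    ext x
    simp only [Finset.mem_Ico, Finset.mem_Icc]
    omega
  rw [h4, h5] at h3
  have h6 : IsIso ((t.truncLTι ((N : ℤ) + 1)).app X) :=
    (t.isLE_iff_isIso_truncLTι_app N (N + 1) rfl X).1 h1
  rwa [hd_iso R (asIso ((t.truncLTι ((N : ℤ) + 1)).app X))] at h3

variable {t} {R}

lemma isIso_H_trunc (he : TExact t R) (X : C) (j : ℤ) :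
    IsIso (R.H.map (((t.truncLTι (j + 1)).app X)⟦j⟧')) ∧
    IsIso (R.H.map (((t.truncGEπ j).app ((t.truncLT (j + 1)).obj X))⟦j⟧')) := by
  constructor
  · have hT := t.triangleLTGE_distinguished (j + 1) X
    have h1 : Mono (R.H.map (((t.truncLTι (j + 1)).app X)⟦j⟧')) :=
      hmono1 R.H hT j (he.isGE (t.isGE_truncGE_obj X (j + 1) (j + 1)) _ (by omega))
    have h2 : Epi (R.H.map (((t.truncLTι (j + 1)).app X)⟦j⟧')) :=
      hepi1 R.H hT j (he.isGE (t.isGE_truncGE_obj X (j + 1) (j + 1)) _ (by omega))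
    exact isIso_of_mono_of_epi _
  · have hT := t.triangleLTGE_distinguished j ((t.truncLT (j + 1)).obj X)
    have h0 : t.IsLE ((t.truncLT j).obj ((t.truncLT (j + 1)).obj X)) (j - 1) := inferInstance
    have h1 : Mono (R.H.map (((t.truncGEπ j).app ((t.truncLT (j + 1)).obj X))⟦j⟧')) :=
      hmono2 R.H hT j (he.isLE h0 _ (by omega))
    have h2 : Epi (R.H.map (((t.truncGEπ j).app ((t.truncLT (j + 1)).obj X))⟦j⟧')) :=
      hepi2 R.H hT j (he.isLE h0 _ (by omega))
    exact isIso_of_mono_of_epi _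

lemma hd_coh (he : TExact t R) (X : C) (j : ℤ) : hd R (coh t j X) j = hd R X j := by
  obtain ⟨h1, h2⟩ := isIso_H_trunc he X j
  exact ((finrank_iso (asIso (R.H.map (((t.truncGEπ j).app
    ((t.truncLT (j + 1)).obj X))⟦j⟧')))).symm).trans
    (finrank_iso (asIso (R.H.map (((t.truncLTι (j + 1)).app X)⟦j⟧'))))

/-- A morphism which induces an isomorphism on the cohomology in degree `j` of the realisation
induces an isomorphism on the cohomology object in degree `j`. -/
lemma isIso_coh_map (he : TExact t R)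
    (hc : ∀ X : C, (∀ i : ℤ, IsZero (R.H.obj (X⟦i⟧))) → IsZero X) {X Y : C} (f : X ⟶ Y) (j : ℤ)
    (hf : IsIso (R.H.map (f⟦j⟧'))) : IsIso ((t.truncGELT j (j + 1)).map f) := by
  obtain ⟨h1, h2⟩ := isIso_H_trunc he X j
  obtain ⟨h3, h4⟩ := isIso_H_trunc he Y j
  have h5 : IsIso (R.H.map (((t.truncLT (j + 1)).map f)⟦j⟧')) := by
    have e1 : R.H.map (((t.truncLT (j + 1)).map f)⟦j⟧') ≫
        R.H.map (((t.truncLTι (j + 1)).app Y)⟦j⟧') =
        R.H.map (((t.truncLTι (j + 1)).app X)⟦j⟧') ≫ R.H.map (f⟦j⟧') := by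
      rw [← Functor.map_comp, ← Functor.map_comp, ← Functor.map_comp, ← Functor.map_comp,
        (t.truncLTι (j + 1)).naturality]
      rfl
    have e2 : IsIso (R.H.map (((t.truncLT (j + 1)).map f)⟦j⟧') ≫
        R.H.map (((t.truncLTι (j + 1)).app Y)⟦j⟧')) := by
      rw [e1]
      infer_instance
    exact IsIso.of_isIso_comp_right _ (R.H.map (((t.truncLTι (j + 1)).app Y)⟦j⟧'))
  have h6 : IsIso (R.H.map (((t.truncGELT j (j + 1)).map f)⟦j⟧')) := by
    have e1 : R.H.map (((t.truncGEπ j).app ((t.truncLT (j + 1)).obj X))⟦j⟧') ≫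
        R.H.map (((t.truncGELT j (j + 1)).map f)⟦j⟧') =
        R.H.map (((t.truncLT (j + 1)).map f)⟦j⟧') ≫
        R.H.map (((t.truncGEπ j).app ((t.truncLT (j + 1)).obj Y))⟦j⟧') := by
      rw [← Functor.map_comp, ← Functor.map_comp, ← Functor.map_comp, ← Functor.map_comp]
      have := (t.truncGEπ j).naturality ((t.truncLT (j + 1)).map f)
      dsimp at this ⊢
      rw [← this]
    have e2 : IsIso (R.H.map (((t.truncGEπ j).app ((t.truncLT (j + 1)).obj X))⟦j⟧') ≫
        R.H.map (((t.truncGELT j (j + 1)).map f)⟦j⟧')) := by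
      rw [e1]
      infer_instance
    exact IsIso.of_isIso_comp_left (R.H.map (((t.truncGEπ j).app
      ((t.truncLT (j + 1)).obj X))⟦j⟧')) _
  obtain ⟨Z, g, h, hT⟩ := distinguished_cocone_triangle ((t.truncGELT j (j + 1)).map f)
  apply isIso1_of_isZero3 hT
  apply hc
  intro i
  have hX := fun (i : ℤ) (hi : i ≠ j) => (lt_or_gt_of_ne hi).elim
    (fun h => he.isGE (coh_ge t j X) i h) (fun h => he.isLE (coh_le t j X) i h)
  have hY := fun (i : ℤ) (hi : i ≠ j) => (lt_or_gt_of_ne hi).elim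
    (fun h => he.isGE (coh_ge t j Y) i h) (fun h => he.isLE (coh_le t j Y) i h)
  let _ := Functor.ShiftSequence.tautological R.H ℤ
  by_cases hi : i = j
  · subst hi
    have h7 : Epi (R.H.map (g⟦i⟧')) := hepi2 R.H hT i (hX _ (by omega))
    have h8 : R.H.map (((t.truncGELT i (i + 1)).map f)⟦i⟧') ≫ R.H.map (g⟦i⟧') = 0 := by
      rw [← Functor.map_comp, ← Functor.map_comp, comp12 hT, Functor.map_zero, Functor.map_zero]
    have h9 : R.H.map (g⟦i⟧') = 0 := by
      rw [← cancel_epi (R.H.map (((t.truncGELT i (i + 1)).map f)⟦i⟧')), h8, comp_zero]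
    rw [IsZero.iff_id_eq_zero, ← cancel_epi (R.H.map (g⟦i⟧')), h9, zero_comp, zero_comp]
  · by_cases hi' : i + 1 = j
    · have h7 : Mono (R.H.map (h⟦i⟧')) := hmono2 R.H (rotD hT) i (hY i hi)
      have h8 : R.H.map (h⟦i⟧') ≫ R.H.map ((((t.truncGELT j (j + 1)).map f)⟦(1 : ℤ)⟧')⟦i⟧') = 0 := by
        rw [← Functor.map_comp, ← Functor.map_comp, comp31 hT, Functor.map_zero, Functor.map_zero]
      have e1 := (shiftFunctorAdd' C (1 : ℤ) i j (by omega)).hom.naturality
        ((t.truncGELT j (j + 1)).map f)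
      have h10 : IsIso (R.H.map ((((t.truncGELT j (j + 1)).map f)⟦(1 : ℤ)⟧')⟦i⟧')) := by
        have e2 : (((t.truncGELT j (j + 1)).map f)⟦(1 : ℤ)⟧')⟦i⟧' =
            (shiftFunctorAdd' C (1 : ℤ) i j (by omega)).inv.app _ ≫
            (((t.truncGELT j (j + 1)).map f)⟦j⟧') ≫
            (shiftFunctorAdd' C (1 : ℤ) i j (by omega)).hom.app _ := by
          rw [e1, Iso.inv_hom_id_app_assoc]
          rfl
        rw [e2, Functor.map_comp, Functor.map_comp]
        infer_instance
      have h9 : R.H.map (h⟦i⟧') = 0 := by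
        rw [← cancel_mono (R.H.map ((((t.truncGELT j (j + 1)).map f)⟦(1 : ℤ)⟧')⟦i⟧')), h8,
          zero_comp]
      rw [IsZero.iff_id_eq_zero, ← cancel_mono (R.H.map (h⟦i⟧')), h9, comp_zero, comp_zero]
    · exact hz3 R.H hT i (hY i hi) (hX _ hi')

end

end Pool.Agent.Q57.MT
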