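import Pool.Agent.Q57.MT.Nice
import Pool.Agent.Q57.MT.Trunc

/-!
# The objects with compatible truncations form a thick subcategory
-/

set_option autoImplicit false
set_option linter.unusedSectionVars false
set_option linter.unusedSimpArgs false
set_option backward.isDefEq.respectTransparency false
set_option backward.defeqAttrib.useBackward true

open CategoryTheory Limits Pretriangulated Triangulated ZeroObject
open CategoryTheory.ObjectProperty (extensionProduct extensionProduct_assoc)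
open Pool.Agent.Y116.MT (hz1 hz2 hz3 rotD comp12)

namespace Pool.Agent.Q57.MT

universe v u

section

variable {C : Type u} [Category.{v} C] [Preadditive C] [HasZeroObject C] [HasShift C ℤ]
  [∀ n : ℤ, (shiftFunctor C n).Additive] [Pretriangulated C]
  {A : Type*} [Category A] [Abelian A] {H : C ⥤ A} [H.IsHomological] {t : TStructure C}

lemma NLE.iso {n : ℤ} {X Y : C} (h : NLE H t n X) (e : X ≅ Y) : NLE H t n Y :=
  ⟨@TStructure.isLE_of_iso _ _ _ _ _ _ _ t _ _ e n h.1,
    fun i hi => (h.2 i hi).of_iso (H.mapIso ((shiftFunctor C i).mapIso e.symm))⟩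

lemma NGE.iso {n : ℤ} {X Y : C} (h : NGE H t n X) (e : X ≅ Y) : NGE H t n Y :=
  ⟨@TStructure.isGE_of_iso _ _ _ _ _ _ _ t _ _ e n h.1,
    fun i hi => (h.2 i hi).of_iso (H.mapIso ((shiftFunctor C i).mapIso e.symm))⟩

variable [IsTriangulated C]

lemma nice_iff (X : C) : Nice H t X ↔ ∀ n : ℤ,
    NLE H t n ((t.truncLT (n + 1)).obj X) ∧ NGE H t (n + 1) ((t.truncGE (n + 1)).obj X) := by
  constructor
  · intro hX n
    obtain ⟨A, B, f, g, h, hT, hA, hB⟩ := hX n
    have h1 : t.IsLE ((t.truncLT (n + 1)).obj X) n := inferInstance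
    have h2 : t.IsGE ((t.truncGE (n + 1)).obj X) (n + 1) := inferInstance
    obtain ⟨e, -⟩ := t.triangle_iso_exists hT (t.triangleLTGE_distinguished (n + 1) X)
      (Iso.refl _) n (n + 1) hA.1 hB.1 h1 h2 (by omega)
    exact ⟨hA.iso (Triangle.π₁.mapIso e), hB.iso (Triangle.π₃.mapIso e)⟩
  · intro hX n
    exact ⟨_, _, _, _, _, t.triangleLTGE_distinguished (n + 1) X, (hX n).1, (hX n).2⟩

lemma isZero_H_retract {X Y : C} (i : Y ⟶ X) (r : X ⟶ Y) (hir : i ≫ r = 𝟙 _) (n : ℤ)
    (h : IsZero (H.obj (X⟦n⟧))) : IsZero (H.obj (Y⟦n⟧)) := by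
  rw [IsZero.iff_id_eq_zero]
  have h1 : 𝟙 (H.obj (Y⟦n⟧)) = H.map (i⟦n⟧') ≫ H.map (r⟦n⟧') := by
    rw [← Functor.map_comp, ← Functor.map_comp, hir, CategoryTheory.Functor.map_id,
      CategoryTheory.Functor.map_id]
  rw [h1, h.eq_of_tgt (H.map (i⟦n⟧')) 0, zero_comp]

lemma Nice.retract {X Y : C} (hX : Nice H t X) (i : Y ⟶ X) (r : X ⟶ Y) (hir : i ≫ r = 𝟙 _) :
    Nice H t Y := by
  rw [nice_iff] at hX ⊢
  intro n
  obtain ⟨h1, h2⟩ := hX n
  refine ⟨⟨inferInstance, fun j hj => ?_⟩, ⟨inferInstance, fun j hj => ?_⟩⟩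
  · refine isZero_H_retract ((t.truncLT (n + 1)).map i) ((t.truncLT (n + 1)).map r) ?_ j (h1.2 j hj)
    rw [← Functor.map_comp, hir, CategoryTheory.Functor.map_id]
  · refine isZero_H_retract ((t.truncGE (n + 1)).map i) ((t.truncGE (n + 1)).map r) ?_ j (h2.2 j hj)
    rw [← Functor.map_comp, hir, CategoryTheory.Functor.map_id]

lemma Nice.shift {X : C} (hX : Nice H t X) (a : ℤ) : Nice H t (X⟦a⟧) := by
  intro n
  obtain ⟨A, B, f, g, h, hT, hA, hB⟩ := hX (n + a)
  refine ⟨_, _, _, _, _, Triangle.shift_distinguished _ hT a, ⟨?_, fun i hi => ?_⟩,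
    ⟨?_, fun i hi => ?_⟩⟩
  · exact @TStructure.isLE_shift _ _ _ _ _ _ _ t A (n + a) a n (by omega) hA.1
  · exact (hA.2 (i + a) (by omega)).of_iso
      (H.mapIso ((shiftFunctorAdd' C a i (i + a) (by omega)).symm.app A))
  · exact @TStructure.isGE_shift _ _ _ _ _ _ _ t B (n + a + 1) a (n + 1) (by omega) hB.1
  · exact (hB.2 (i + a) (by omega)).of_iso
      (H.mapIso ((shiftFunctorAdd' C a i (i + a) (by omega)).symm.app B))

lemma Nice.zero {X : C} (hX : IsZero X) : Nice H t X := by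
  intro n
  have h1 := t.triangleLTGE_distinguished (n + 1) X
  refine ⟨_, _, _, _, _, h1, ⟨inferInstanceAs (t.IsLE ((t.truncLT (n + 1)).obj X) n),
    fun i _ => ?_⟩, ⟨inferInstanceAs (t.IsGE ((t.truncGE (n + 1)).obj X) (n + 1)), fun i _ => ?_⟩⟩
  · exact H.map_isZero ((shiftFunctor C i).map_isZero ((t.truncLT (n + 1)).map_isZero hX))
  · exact H.map_isZero ((shiftFunctor C i).map_isZero ((t.truncGE (n + 1)).map_isZero hX))

instance : (Nice H t).IsStableUnderRetracts where
  of_retract r h := h.retract r.i r.r r.retract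

instance : (Nice H t).IsStableUnderShift ℤ where
  isStableUnderShiftBy a := ⟨fun _ hX => hX.shift a⟩

instance : (Nice H t).ContainsZero where
  exists_zero := ⟨0, isZero_zero C, Nice.zero (isZero_zero C)⟩

lemma nice_triangulated (hev : Even' H t) : (Nice H t).IsTriangulated :=
  { ext₂' := fun _ hT h1 h3 => ObjectProperty.le_isoClosure _ _ (Nice.ext hev hT h1 h3) }

/-- If a family of nice objects generates the category, all objects are nice. -/
theorem nice_of_generate (hev : Even' H t) {P : ObjectProperty C} (hP : P ≤ Nice H t)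
    (hgen : P.IsClassicalTriangulatedGenerator) (X : C) : Nice H t X := by
  have := nice_triangulated (H := H) hev
  have h1 := P.triangEnvelope_le_iff.mpr hP
  rw [hgen] at h1
  exact h1 X trivial

lemma Nice.exact_le {X : C} (h : Nice H t X) (hX : t.le 0 X) (i : ℤ) (hi : 0 < i) :
    IsZero (H.obj (X⟦i⟧)) := by
  have h1 := ((nice_iff X).1 h 0).1.2 i hi
  have h2 : t.IsLE X 0 := ⟨hX⟩
  have h3 : IsIso ((t.truncLTι (0 + 1)).app X) := (t.isLE_iff_isIso_truncLTι_app 0 (0 + 1) rfl X).1 h2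
  exact h1.of_iso (H.mapIso ((shiftFunctor C i).mapIso (asIso ((t.truncLTι (0 + 1)).app X)).symm))

lemma Nice.exact_ge {X : C} (h : Nice H t X) (hX : t.ge 0 X) (i : ℤ) (hi : i < 0) :
    IsZero (H.obj (X⟦i⟧)) := by
  have h1 := ((nice_iff X).1 h (-1)).2.2 i (by omega)
  have h2 : t.IsGE X (-1 + 1) := ⟨hX⟩
  have h3 : IsIso ((t.truncGEπ (-1 + 1)).app X) := (t.isGE_iff_isIso_truncGEπ_app (-1 + 1) X).1 h2
  exact h1.of_iso (H.mapIso ((shiftFunctor C i).mapIso (asIso ((t.truncGEπ (-1 + 1)).app X))))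

end

end Pool.Agent.Q57.MT
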