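import Pool.Agent.Y112.KD.Zip
import Pool.Agent.Y116.MT.Heart

/-!
# Symmetrizers and shifts
-/

set_option autoImplicit false
set_option linter.unusedSectionVars false
set_option linter.unusedSimpArgs false

open CategoryTheory Limits MonoidalCategory Pretriangulated Triangulated
open Pool.Agent.Y112.KD (tp IsSwap sw asym swap_asym asym_main kills_iff zip_kill braid_mu asym_nat
  tpm asym_succ asym_zero asym_one)
open Pool.Agent.Y116.MT (TensorTriangulated rShift lShift shiftTensorIso)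

namespace Pool.Agent.Q57.MT

universe v u

section

variable {C : Type u} [Category.{v} C] [MonoidalCategory C] [SymmetricCategory C]
  [Preadditive C] [Linear ℚ C] [MonoidalPreadditive C] [MonoidalLinear ℚ C]

/-- The symmetry of `L` is a scalar. -/
def Scal (η : ℚ) (L : C) : Prop := (β_ L L).hom = η • 𝟙 _

lemma Scal.iso {η : ℚ} {L M : C} (h : Scal η L) (e : L ≅ M) : Scal η M := by
  have h1 : (e.hom ⊗ₘ e.hom) ≫ (β_ M M).hom = (β_ L L).hom ≫ (e.hom ⊗ₘ e.hom) :=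
    BraidedCategory.braiding_naturality _ _
  have h2 : (e.hom ⊗ₘ e.hom) ≫ (β_ M M).hom = (e.hom ⊗ₘ e.hom) ≫ (η • 𝟙 _) := by
    rw [h1, h, Linear.smul_comp, Linear.comp_smul, Category.id_comp, Category.comp_id]
  exact (cancel_epi _).mp h2

lemma scal_unit : Scal 1 (𝟙_ C) := by
  rw [Scal, one_smul]
  simp [← unitors_equal]

lemma Scal.tensor {η θ : ℚ} {L M : C} (h : Scal η L) (h' : Scal θ M) : Scal (η * θ) (L ⊗ M) := by
  have h1 := braid_mu L M
  rw [h, h'] at h1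
  have h2 : ((η • 𝟙 (L ⊗ L)) ⊗ₘ (θ • 𝟙 (M ⊗ M))) = (η * θ) • 𝟙 _ := by
    simp only [MonoidalCategory.tensorHom_def, MonoidalLinear.smul_whiskerRight,
      MonoidalLinear.whiskerLeft_smul, Linear.smul_comp, Linear.comp_smul, id_whiskerRight,
      MonoidalCategory.whiskerLeft_id, Category.comp_id, smul_smul]
    ring_nf
  rw [h2, Linear.comp_smul, Category.comp_id] at h1
  have h3 : (β_ (L ⊗ M) (L ⊗ M)).hom ≫ tensorμ L M L M = ((η * θ) • 𝟙 _) ≫ tensorμ L M L M := by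
    rw [h1, Linear.smul_comp, Category.id_comp]
  have h4 := congrArg (fun z => z ≫ tensorδ L M L M) h3
  simp only [Category.assoc, tensorμ_tensorδ, Category.comp_id] at h4
  exact h4

lemma whiskerRight_zero_cancel {X Y L L' : C} (e : L ⊗ L' ≅ 𝟙_ C) (f : X ⟶ Y)
    (h : f ▷ L = 0) : f = 0 := by
  have h0 : (0 : X ⊗ L ⟶ Y ⊗ L) ▷ L' = 0 := (tensorRight L').map_zero _ _
  have h1 : f ▷ (L ⊗ L') = 0 := by
    rw [whiskerRight_tensor, h, h0, zero_comp, comp_zero]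
  have h2 : f ▷ 𝟙_ C = 0 := by
    have h3 : (X ◁ e.hom) ≫ f ▷ 𝟙_ C = f ▷ (L ⊗ L') ≫ (Y ◁ e.hom) := whisker_exchange _ _
    rw [h1, zero_comp] at h3
    rw [← cancel_epi (X ◁ e.hom), h3, comp_zero]
  rw [whiskerRight_id] at h2
  have h3 := congrArg (fun z => (ρ_ X).inv ≫ z ≫ (ρ_ Y).hom) h2
  simpa using h3

lemma whiskerRight_cancel {X Y L L' : C} (e : L ⊗ L' ≅ 𝟙_ C) (f g : X ⟶ Y)
    (h : f ▷ L = g ▷ L) : f = g := by
  rw [← sub_eq_zero]
  apply whiskerRight_zero_cancel e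
  have h1 : (f - g) ▷ L = f ▷ L - g ▷ L := (tensorRight L).map_sub
  rw [h1, h, sub_self]

lemma whiskerLeft_cancel {X Y L L' : C} (e : L ⊗ L' ≅ 𝟙_ C) (f g : X ⟶ Y)
    (h : L ◁ f = L ◁ g) : f = g := by
  apply whiskerRight_cancel e
  rw [← cancel_mono (β_ Y L).hom, BraidedCategory.braiding_naturality_left,
    BraidedCategory.braiding_naturality_left, h]

/-- The inverse of an object with scalar symmetry. -/
lemma Scal.inv {L L' : C} (h : Scal (-1) L) (e : L ⊗ L' ≅ 𝟙_ C) : Scal (-1) L' := by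
  have e' : L' ⊗ L ≅ 𝟙_ C := β_ L' L ≪≫ e
  have h1 : Scal 1 (L ⊗ L') := scal_unit.iso e.symm
  have h2 := braid_mu L L'
  rw [h1, h, Linear.smul_comp, Category.id_comp, one_smul] at h2
  have h3 : (((-1 : ℚ) • 𝟙 (L ⊗ L)) ⊗ₘ (β_ L' L').hom) = 𝟙 _ := by
    have h4 := congrArg (fun z => tensorδ L L' L L' ≫ z) h2
    simpa using h4.symm
  have h5 : (L ⊗ L) ◁ ((-1 : ℚ) • (β_ L' L').hom) = (L ⊗ L) ◁ 𝟙 _ := by
    rw [MonoidalCategory.whiskerLeft_id, ← h3, MonoidalCategory.tensorHom_def,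
      MonoidalLinear.smul_whiskerRight, id_whiskerRight, Linear.smul_comp, Category.id_comp,
      MonoidalLinear.whiskerLeft_smul]
  have e2 : (L ⊗ L) ⊗ (L' ⊗ L') ≅ 𝟙_ C := α_ L L (L' ⊗ L') ≪≫
    whiskerLeftIso L ((α_ L L' L').symm ≪≫ whiskerRightIso e L' ≪≫ λ_ L') ≪≫ e
  have h6 := whiskerLeft_cancel e2 _ _ h5
  rw [Scal, ← h6, smul_smul]
  norm_num

lemma swap_scal {η : ℚ} {L : C} (h : Scal η L) {n : ℕ} {s : tp L n ⟶ tp L n}
    (hs : IsSwap L n s) : s = η • 𝟙 _ := by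
  induction hs with
  | last n =>
    simp only [sw]
    rw [show (β_ L L).hom = η • 𝟙 _ from h, MonoidalLinear.whiskerLeft_smul, Linear.smul_comp,
      Linear.comp_smul]
    simp
  | lift n s hs ih =>
    rw [ih, MonoidalLinear.smul_whiskerRight, id_whiskerRight]

/-- The (anti)symmetrizer of an object with scalar symmetry is the identity. -/
lemma asym_scal {η : ℚ} (hη : η * η = 1) {L : C} (h : Scal η L) (n : ℕ) :
    asym η L n = 𝟙 _ := by
  have h1 := Pool.Agent.Y112.KD.asym_comp hη (𝟙 (tp L n)) (fun s hs => by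
    rw [Category.comp_id, swap_scal h hs])
  rwa [Category.comp_id] at h1

/-- Tensor powers of an invertible object are invertible. -/
lemma tp_inv {L L' : C} (e : L ⊗ L' ≅ 𝟙_ C) (n : ℕ) :
    Nonempty ((tp L n) ⊗ (tp L' n) ≅ 𝟙_ C) := by
  induction n with
  | zero => exact ⟨λ_ _⟩
  | succ n ih =>
    obtain ⟨i⟩ := ih
    let μi : (tp L n ⊗ L) ⊗ (tp L' n ⊗ L') ≅ (tp L n ⊗ tp L' n) ⊗ (L ⊗ L') :=
      { hom := tensorμ _ _ _ _, inv := tensorδ _ _ _ _ }
    exact ⟨μi ≪≫ (i ⊗ᵢ e) ≪≫ λ_ _⟩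

lemma asym_iso {η : ℚ} {X Y : C} (e : X ≅ Y) (n : ℕ) (h : asym η X n = 0) : asym η Y n = 0 := by
  have h1 := asym_nat (η := η) e.inv n
  rw [h, comp_zero] at h1
  have h2 : tpm e.inv n ≫ tpm e.hom n = 𝟙 (tp Y n) := by
    clear h h1
    induction n with
    | zero => simp [tpm]
    | succ n ih =>
      simp only [tpm]
      rw [tensorHom_comp_tensorHom, ih, e.inv_hom_id, id_tensorHom_id]
  have h3 := congrArg (fun z => z ≫ tpm e.hom n) h1
  simpa only [Category.assoc, h2, Category.comp_id, zero_comp] using h3.symm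

/-- Twisting by an invertible object with scalar symmetry. -/
lemma asym_twist {η θ : ℚ} (hη : η * η = 1) (hθ : θ * θ = 1) {A L L' : C} (e : L ⊗ L' ≅ 𝟙_ C)
    (hL : Scal θ L) (n : ℕ) (h : asym (η * θ) (A ⊗ L) n = 0) : asym η A n = 0 := by
  have h1 := zip_kill hη hθ A L n h
  rw [asym_scal hθ hL, tensorHom_id] at h1
  obtain ⟨i⟩ := tp_inv e n
  exact whiskerRight_zero_cancel i _ h1

end

section

variable {C : Type u} [Category.{v} C] [Preadditive C] [HasZeroObject C] [HasShift C ℤ]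
  [∀ n : ℤ, (shiftFunctor C n).Additive] [Pretriangulated C] [MonoidalCategory C]
  [SymmetricCategory C] [TensorTriangulated C] [MonoidalPreadditive C] [Linear ℚ C]
  [MonoidalLinear ℚ C]

/-- The shifts of the unit are inverse to each other. -/
noncomputable def unitInv (i : ℤ) : (𝟙_ C)⟦i⟧ ⊗ (𝟙_ C)⟦-i⟧ ≅ 𝟙_ C :=
  shiftTensorIso (𝟙_ C) (𝟙_ C) i ≪≫ λ_ _

lemma scal_one : Scal (-1) ((𝟙_ C)⟦(1 : ℤ)⟧) := by
  rw [Scal, TensorTriangulated.sign]
  simp

lemma scal_neg_one : Scal (-1) ((𝟙_ C)⟦(-1 : ℤ)⟧) := scal_one.inv (unitInv 1)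

lemma asym_shift_neg_one {η : ℚ} (hη : η * η = 1) {Z : C} {n : ℕ} (h : asym (-η) Z n = 0) :
    asym η (Z⟦(-1 : ℤ)⟧) n = 0 := by
  refine asym_twist (η := η) (θ := -1) hη (by norm_num) (L := (𝟙_ C)⟦(1 : ℤ)⟧) (unitInv 1)
    scal_one n ?_
  rw [mul_neg_one]
  exact asym_iso ((ρ_ Z).symm ≪≫ (shiftTensorIso Z (𝟙_ C) (-1)).symm ≪≫
    whiskerLeftIso _ (eqToIso (by rw [neg_neg]))) n h

lemma asym_shift_one {η : ℚ} (hη : η * η = 1) {Z : C} {n : ℕ} (h : asym (-η) Z n = 0) :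
    asym η (Z⟦(1 : ℤ)⟧) n = 0 := by
  refine asym_twist (η := η) (θ := -1) hη (by norm_num) (L := (𝟙_ C)⟦(-1 : ℤ)⟧)
    (β_ _ _ ≪≫ unitInv 1) scal_neg_one n ?_
  rw [mul_neg_one]
  exact asym_iso ((ρ_ Z).symm ≪≫ (shiftTensorIso Z (𝟙_ C) 1).symm) n h

lemma asym_shift_nat {Z : C} {n : ℕ} (h : asym (-1) Z n = 0) (a : ℕ) :
    asym (-(-1) ^ a) (Z⟦(a : ℤ)⟧) n = 0 := by
  induction a with
  | zero =>
    have h1 : asym (-1) (Z⟦((0 : ℕ) : ℤ)⟧) n = 0 :=
      asym_iso ((shiftFunctorZero' C ((0 : ℕ) : ℤ) (by simp)).symm.app Z) n h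
    simpa using h1
  | succ a ih =>
    have h1 : ((-1 : ℚ) ^ (a + 1)) * ((-1 : ℚ) ^ (a + 1)) = 1 := by
      rw [← mul_pow]
      norm_num
    have h2 := asym_shift_one (η := -(-1) ^ (a + 1)) (by rw [neg_mul_neg, h1]) (Z := Z⟦(a : ℤ)⟧)
      (n := n) (by
        have : (-(-(-1) ^ (a + 1)) : ℚ) = -(-1) ^ a := by ring
        rw [this]
        exact ih)
    exact asym_iso ((shiftFunctorAdd' C (a : ℤ) 1 ((a + 1 : ℕ) : ℤ) (by push_cast; ring)).symm.app
      Z) n h2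

lemma asym_shift_neg {Z : C} {n : ℕ} (h : asym (-1) Z n = 0) (a : ℕ) :
    asym (-(-1) ^ a) (Z⟦(-a : ℤ)⟧) n = 0 := by
  induction a with
  | zero =>
    have h1 : asym (-1) (Z⟦(-(0 : ℕ) : ℤ)⟧) n = 0 :=
      asym_iso ((shiftFunctorZero' C (-(0 : ℕ) : ℤ) (by simp)).symm.app Z) n h
    simpa using h1
  | succ a ih =>
    have h1 : ((-1 : ℚ) ^ (a + 1)) * ((-1 : ℚ) ^ (a + 1)) = 1 := by
      rw [← mul_pow]
      norm_num
    have h2 := asym_shift_neg_one (η := -(-1) ^ (a + 1)) (by rw [neg_mul_neg, h1])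
      (Z := Z⟦(-a : ℤ)⟧) (n := n) (by
        have : (-(-(-1) ^ (a + 1)) : ℚ) = -(-1) ^ a := by ring
        rw [this]
        exact ih)
    exact asym_iso ((shiftFunctorAdd' C (-a : ℤ) (-1) (-(a + 1 : ℕ) : ℤ)
      (by push_cast; ring)).symm.app Z) n h2

/-- If `Z` is killed by an exterior power, then its even shifts are killed by an exterior power
and its odd shifts are killed by a symmetric power. -/
lemma asym_shift {Z : C} {n : ℕ} (h : asym (-1) Z n = 0) (a : ℤ) :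
    asym (-(-1) ^ a.natAbs) (Z⟦a⟧) n = 0 := by
  rcases Int.natAbs_eq a with h1 | h1
  · have h2 := asym_shift_nat h a.natAbs
    exact asym_iso (eqToIso (by rw [← h1])) n h2
  · have h2 := asym_shift_neg h a.natAbs
    exact asym_iso (eqToIso (by rw [← h1])) n h2

end

end Pool.Agent.Q57.MT
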