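import Pool.Agent.Q57.MT.Lax

/-!
# The antisymmetrizer of a finite dimensional vector space vanishes for large powers
-/

set_option autoImplicit false
set_option linter.unusedSectionVars false
set_option linter.unusedSimpArgs false

open CategoryTheory Limits MonoidalCategory
open Pool.Agent.Y112.KD (tp IsSwap sw asym swap_asym asym_main sw_nat sw_nat_left asym_nat
  tpm asym_succ asym_zero asym_one)

namespace Pool.Agent.Q57.MT

universe v u w

section

variable {C : Type u} [Category.{v} C] [MonoidalCategory C] [SymmetricCategory C]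
  [Preadditive C] [Linear ℚ C] [MonoidalPreadditive C] [MonoidalLinear ℚ C]

lemma sw_unit : sw (𝟙_ C) (𝟙_ C) = 𝟙 _ := by
  have h := scal_unit (C := C)
  rw [Scal, one_smul] at h
  simp only [sw]
  rw [h]
  simp

lemma tenv_congr {V : C} (x y : ℕ → (𝟙_ C ⟶ V)) (n : ℕ) (h : ∀ i < n, x i = y i) :
    tenv x n = tenv y n := by
  induction n with
  | zero => rfl
  | succ n ih => rw [tenv, tenv, ih (fun i hi => h i (by omega)), h n (by omega)]

lemma tenv_swap {V : C} (x : ℕ → (𝟙_ C ⟶ V)) (n k : ℕ) (hk : k + 1 < n) :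
    ∃ s, IsSwap V n s ∧ tenv x n ≫ s = tenv (x ∘ Equiv.swap k (k + 1)) n := by
  induction n with
  | zero => omega
  | succ n ih =>
    by_cases hn : k + 1 = n
    · subst hn
      refine ⟨_, IsSwap.last k, ?_⟩
      have e3 : ∀ y : ℕ → (𝟙_ C ⟶ V), tenv y (k + 2) = (λ_ (𝟙_ C)).inv ≫
          ((λ_ (𝟙_ C)).inv ▷ 𝟙_ C) ≫ ((tenv y k ⊗ₘ y k) ⊗ₘ y (k + 1)) := by
        intro y
        rw [tenv, tenv, ← tensorHom_id, tensorHom_comp_tensorHom, Category.id_comp]
      rw [e3, e3, Category.assoc, Category.assoc, sw_nat, sw_unit, Category.id_comp]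
      simp only [Function.comp_apply, Equiv.swap_apply_left, Equiv.swap_apply_right]
      rw [tenv_congr (x ∘ Equiv.swap k (k + 1)) x k (fun i hi => by
        simp only [Function.comp_apply]
        rw [Equiv.swap_apply_of_ne_of_ne (by omega) (by omega)])]
    · obtain ⟨s, hs, h⟩ := ih (by omega)
      refine ⟨_, IsSwap.lift _ _ hs, ?_⟩
      rw [tenv, Category.assoc, ← tensorHom_id, tensorHom_comp_tensorHom, h, Category.comp_id,
        tenv]
      simp only [Function.comp_apply]
      rw [Equiv.swap_apply_of_ne_of_ne (by omega) (by omega)]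

lemma tenv_asym_swap {V : C} (x : ℕ → (𝟙_ C ⟶ V)) (n k : ℕ) (hk : k + 1 < n) :
    tenv (x ∘ Equiv.swap k (k + 1)) n ≫ asym (-1) V n = -(tenv x n ≫ asym (-1) V n) := by
  obtain ⟨s, hs, h⟩ := tenv_swap x n k hk
  rw [← h, Category.assoc, (swap_asym (by norm_num) V hs).1, Linear.comp_smul, neg_smul, one_smul]

lemma tenv_asym_eq_zero {V : C} (n : ℕ) (d : ℕ) : ∀ (x : ℕ → (𝟙_ C ⟶ V)) (i : ℕ),
    i + d + 1 < n → x i = x (i + d + 1) → tenv x n ≫ asym (-1) V n = 0 := by
  induction d with
  | zero =>
    intro x i hi hx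
    have h1 := tenv_asym_swap x n i (by omega)
    have h2 : x ∘ Equiv.swap i (i + 1) = x := by
      funext j
      simp only [Function.comp_apply]
      by_cases hj : j = i
      · subst hj
        rw [Equiv.swap_apply_left]
        exact hx.symm
      · by_cases hj' : j = i + 1
        · subst hj'
          rw [Equiv.swap_apply_right]
          exact hx
        · rw [Equiv.swap_apply_of_ne_of_ne hj hj']
    rw [h2] at h1
    have h3 : (2 : ℚ) • (tenv x n ≫ asym (-1) V n) = 0 := by
      rw [two_smul]
      nth_rewrite 1 [h1]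
      simp
    have h4 := congrArg (fun z => (2 : ℚ)⁻¹ • z) h3
    simpa [smul_smul] using h4
  | succ d ih =>
    intro x i hi hx
    have h1 := tenv_asym_swap x n (i + d + 1) (by omega)
    have h2 := ih (x ∘ Equiv.swap (i + d + 1) (i + d + 1 + 1)) i (by omega) (by
      simp only [Function.comp_apply]
      rw [Equiv.swap_apply_of_ne_of_ne (by omega) (by omega), Equiv.swap_apply_left]
      exact hx)
    rw [h2] at h1
    rw [← neg_eq_zero, ← h1]

end

section

variable {E : Type w} [Field E] [CharZero E]

lemma vec_ext {V : ModuleCat.{w} E} {ι : Type*} [Nonempty ι] (b : Module.Basis ι E V) (n : ℕ) :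
    ∀ {W : ModuleCat.{w} E} (g : tp V n ⟶ W),
      (∀ x : ℕ → ι, tenv (fun i => vecHom (b (x i))) n ≫ g = 0) → g = 0 := by
  induction n with
  | zero =>
    intro W g hg
    have := hg (fun _ => Classical.arbitrary ι)
    simpa [tenv] using this
  | succ n ih =>
    intro W g hg
    have h1 : ∀ j : ι, (ρ_ (tp V n)).inv ≫ (tp V n ◁ vecHom (b j)) ≫ g = 0 := by
      intro j
      apply ih
      intro x
      have h2 := hg (Function.update x n j)
      rw [tenv, tenv_congr (fun i => vecHom (b (Function.update x n j i)))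
        (fun i => vecHom (b (x i))) n (fun i hi => by
          rw [Function.update_of_ne (by omega)])] at h2
      simp only [Function.update_self] at h2
      rw [← h2]
      simp only [MonoidalCategory.tensorHom_def, Category.assoc]
      rw [rightUnitor_inv_naturality_assoc, unitors_inv_equal]
    ext : 1
    refine TensorProduct.ext ?_
    ext t : 1
    refine b.ext fun j => ?_
    have h3 := LinearMap.congr_fun (congrArg ModuleCat.Hom.hom (h1 j)) t
    change g.hom (t ⊗ₜ[E] b j) = 0
    change g.hom (t ⊗ₜ[E] ((1 : E) • b j)) = 0 at h3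
    rwa [one_smul] at h3

/-- The antisymmetrizer of a finite dimensional vector space vanishes for large powers. -/
theorem asym_vec_zero {V : ModuleCat.{w} E} [Module.Finite E V] {n : ℕ}
    (hn : Module.finrank E V < n) : asym (-1) V n = 0 := by
  rcases Nat.eq_zero_or_pos (Module.finrank E V) with h0 | h0
  · obtain ⟨m, rfl⟩ : ∃ m, n = m + 1 := ⟨n - 1, by omega⟩
    have h1 : IsZero V := by
      rw [ModuleCat.isZero_iff_subsingleton]
      exact Module.finrank_zero_iff.mp h0
    have h2 : IsZero (tp V (m + 1)) := (tensorLeft (tp V m)).map_isZero h1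
    exact h2.eq_of_src _ _
  · have : Nonempty (Fin (Module.finrank E V)) := ⟨⟨0, h0⟩⟩
    apply vec_ext (Module.finBasis E V)
    intro x
    have h1 : ∃ i j : Fin n, i < j ∧ x i = x j := by
      have h2 := Fintype.exists_ne_map_eq_of_card_lt (fun i : Fin n => x i) (by simpa using hn)
      obtain ⟨i, j, hij, h3⟩ := h2
      rcases lt_or_gt_of_ne hij with h4 | h4
      · exact ⟨i, j, h4, h3⟩
      · exact ⟨j, i, h4, h3.symm⟩
    obtain ⟨i, j, hij, hx⟩ := h1
    have h3 : (i : ℕ) < j := hij
    have h4 : (i : ℕ) + (j - i - 1) + 1 = j := by omega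
    exact tenv_asym_eq_zero n (j - i - 1) _ i (by omega) (by rw [h4, hx])

end

end Pool.Agent.Q57.MT
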